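import Pool.Agent.SYN.Good

open MeasureTheory Set Filter
open scoped ENNReal Topology

namespace Pool.Agent.SYN.Degen

variable {m : ℕ} {D : Geo m} (S : Degen D)

/-- from the metric ball to the chart -/
theorem chart {A a : ℝ} (hR : D.Rules) (hF : S.Facts A a) (k : ℕ) (w : Fin m → ℂ)
    (K r ρ : ℝ) (hK : 0 ≤ K) (hr : 0 < r) (hw : Metric.ball w r ⊆ S.U k)
    (hρ : Real.sqrt K * r < ρ)
    (hG : ∀ u ∈ S.U k, S.φ k u ∈ D.ball (S.M k) (S.φ k w) ρ → S.G k u ≤ K) :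
    ∀ u ∈ Metric.ball w r, S.G k u ≤ K := by
  intro u hu
  obtain ⟨v, hv⟩ : ∃ v, v = u - w := ⟨_, rfl⟩
  have hvr : ‖v‖ < r := by
    rw [hv, ← dist_eq_norm]; exact hu
  have hp : ∀ s ∈ Icc (0 : ℝ) 1, w + s • v ∈ Metric.ball w r := by
    intro s hs
    rw [Metric.mem_ball, dist_eq_norm, add_sub_cancel_left, norm_smul, Real.norm_eq_abs,
      abs_of_nonneg hs.1]
    calc s * ‖v‖ ≤ 1 * ‖v‖ := by gcongr; exact hs.2
      _ < r := by rw [one_mul]; exact hvr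
  have hfc : ContinuousOn (fun s : ℝ => D.dist (S.M k) (S.φ k w) (S.φ k (w + s • v)))
      (Icc (0 : ℝ) 1) := by
    refine (hR.dist_cont (S.M k) (S.φ k w)).comp_continuousOn ?_
    refine (hF.φ_cont k).comp (by fun_prop) ?_
    intro s hs
    exact hw (hp s hs)
  by_contra hcon
  have hu1 : w + (1 : ℝ) • v = u := by rw [one_smul, hv]; abel
  have h1 : ρ ≤ D.dist (S.M k) (S.φ k w) (S.φ k (w + (1 : ℝ) • v)) := by
    rw [hu1]
    by_contra hlt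
    exact hcon (hG u (hw hu) (not_le.1 hlt))
  have hcomp : IsCompact {s ∈ Icc (0 : ℝ) 1 |
      ρ ≤ D.dist (S.M k) (S.φ k w) (S.φ k (w + s • v))} := by
    have hcl := hfc.preimage_isClosed_of_isClosed isClosed_Icc (isClosed_Ici (a := ρ))
    have : {s ∈ Icc (0 : ℝ) 1 | ρ ≤ D.dist (S.M k) (S.φ k w) (S.φ k (w + s • v))} =
        Icc (0 : ℝ) 1 ∩ (fun s : ℝ => D.dist (S.M k) (S.φ k w) (S.φ k (w + s • v))) ⁻¹' Ici ρ := by
      ext s; rfl
    rw [this]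
    exact isCompact_Icc.inter_left hcl |>.of_isClosed_subset hcl (fun x hx => ⟨hx, hx.1⟩)
  obtain ⟨s₀, hs₀, hmin⟩ := hcomp.exists_isLeast ⟨1, ⟨by simp, h1⟩⟩
  have hs₀I : s₀ ∈ Icc (0 : ℝ) 1 := hs₀.1
  have hlow : ∀ s ∈ Icc (0 : ℝ) 1, s < s₀ → S.G k (w + s • v) ≤ K := by
    intro s hs hlt
    refine hG _ (hw (hp s hs)) ?_
    by_contra hge
    have : ρ ≤ D.dist (S.M k) (S.φ k w) (S.φ k (w + s • v)) := not_lt.1 hge
    exact absurd (hmin ⟨hs, this⟩) (not_le.2 hlt)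
  have hlen := hF.len k w (s₀ • v) (by
    intro s hs
    rw [smul_smul]
    exact hw (hp _ ⟨mul_nonneg hs.1 hs₀I.1, mul_le_one₀ hs.2 hs₀I.1 hs₀I.2⟩))
  have hint : ∫⁻ s in Icc (0 : ℝ) 1, ENNReal.ofReal (Real.sqrt (S.G k (w + s • s₀ • v))) ≤
      ENNReal.ofReal (Real.sqrt K) := by
    have hae : ∀ᵐ s ∂(volume.restrict (Icc (0 : ℝ) 1)),
        ENNReal.ofReal (Real.sqrt (S.G k (w + s • s₀ • v))) ≤ ENNReal.ofReal (Real.sqrt K) := by
      have h2 : ∀ᵐ s ∂(volume.restrict (Icc (0 : ℝ) 1)), s ≠ 1 := by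
        refine ae_restrict_of_ae ?_
        exact Measure.ae_ne volume 1
      filter_upwards [ae_restrict_mem measurableSet_Icc, h2] with s hs hs1
      rcases eq_or_lt_of_le hs₀I.1 with h0 | h0
      · -- `s₀ = 0` is impossible
        have h3 : ρ ≤ D.dist (S.M k) (S.φ k w) (S.φ k (w + s₀ • v)) := hs₀.2
        rw [← h0, zero_smul, add_zero, hR.dist_self] at h3
        have : 0 ≤ Real.sqrt K * r := by positivity
        linarith
      · have hs' : s < 1 := lt_of_le_of_ne hs.2 hs1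
        have h4 : s * s₀ < s₀ := by nlinarith
        have h5 := hlow (s * s₀) ⟨mul_nonneg hs.1 hs₀I.1, mul_le_one₀ hs.2 hs₀I.1 hs₀I.2⟩ h4
        rw [smul_smul]
        exact ENNReal.ofReal_le_ofReal (Real.sqrt_le_sqrt h5)
    calc ∫⁻ s in Icc (0 : ℝ) 1, ENNReal.ofReal (Real.sqrt (S.G k (w + s • s₀ • v)))
        ≤ ∫⁻ _ in Icc (0 : ℝ) 1, ENNReal.ofReal (Real.sqrt K) := lintegral_mono_ae hae
      _ = ENNReal.ofReal (Real.sqrt K) := by simp
  have h6 : ENNReal.ofReal (D.dist (S.M k) (S.φ k w) (S.φ k (w + s₀ • v))) ≤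
      ENNReal.ofReal (‖s₀ • v‖ * Real.sqrt K) := by
    rw [ENNReal.ofReal_mul (norm_nonneg _)]
    exact hlen.trans (by gcongr)
  have h7 := (ENNReal.ofReal_le_ofReal_iff (by positivity)).1 h6
  have h8 : ‖s₀ • v‖ ≤ r := by
    rw [norm_smul, Real.norm_eq_abs, abs_of_nonneg hs₀I.1]
    calc s₀ * ‖v‖ ≤ 1 * ‖v‖ := by gcongr; exact hs₀I.2
      _ ≤ r := by rw [one_mul]; exact hvr.le
  have h9 : ‖s₀ • v‖ * Real.sqrt K ≤ r * Real.sqrt K := by gcongr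
  have h10 : ρ ≤ D.dist (S.M k) (S.φ k w) (S.φ k (w + s₀ • v)) := hs₀.2
  nlinarith

end Pool.Agent.SYN.Degen
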