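import Pool.Agent.SYN.Good
import Pool.Agent.SYM.SegAvg

/-!
# SYN/NonColl : unit balls at good points of the chart do not collapse

If the average over `v` in the unit ball of `∫_0^1 √G(w + s v) ds` is at most `l`, then for at least
half of the `v` the distance from `φ(w)` to `φ(w + v)` is at most `2 l / V`. These `φ(w + v)` lie in
a ball of radius `2 l / V + 1`, which has volume bounded below by the comparison of the volume form
with the Lebesgue measure of the chart; then the unit ball has, by Bishop-Gromov.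
-/

set_option autoImplicit false

open MeasureTheory Set Filter
open scoped ENNReal Topology

namespace Pool.Agent.SYN

open Pool.Agent.SYM (segAvg segFrom half_segments_good)

namespace Degen

variable {m : ℕ} {D : Geo m} (S : Degen D)

theorem noncollapse_aux_meas (hR : D.Rules) (M : D.Met) (x : D.X) (r : ℝ) :
    MeasurableSet (D.ball M x r) :=
  measurableSet_lt (hR.dist_cont M x).measurable measurable_const

theorem noncollapse {B A a : ℝ} (hR : D.Rules) (hH : D.Heat B) (hF : S.Facts A a) (l : ℝ)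
    (hl : 0 < l) : ∃ v : ℝ, 0 < v ∧ ∀ᶠ k in atTop, ∀ w ∈ S.W k,
      ∫⁻ v in Metric.ball (0 : Fin m → ℂ) 1, ∫⁻ s in Icc (0 : ℝ) 1,
        ENNReal.ofReal (Real.sqrt (S.G k (w + s • v))) ≤ ENNReal.ofReal l →
      v ≤ (D.vol (S.M k)).real (D.ball (S.M k) (S.φ k w) 1) := by
  have hApos := hF.A_pos
  have hVne : volume (Metric.ball (0 : Fin m → ℂ) 1) ≠ 0 :=
    (Metric.measure_ball_pos volume _ one_pos).ne'
  have hVtop : volume (Metric.ball (0 : Fin m → ℂ) 1) ≠ ∞ := measure_ball_lt_top.ne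
  obtain ⟨V, hV⟩ : ∃ V : ℝ, V = (volume (Metric.ball (0 : Fin m → ℂ) 1)).toReal := ⟨_, rfl⟩
  have hV0 : 0 < V := hV ▸ ENNReal.toReal_pos hVne hVtop
  have hVof : volume (Metric.ball (0 : Fin m → ℂ) 1) = ENNReal.ofReal V := by
    rw [hV, ENNReal.ofReal_toReal hVtop]
  obtain ⟨K, hK⟩ : ∃ K : ℝ, K = l / V := ⟨_, rfl⟩
  have hK0 : 0 < K := hK ▸ div_pos hl hV0
  obtain ⟨ρ, hρ⟩ : ∃ ρ : ℝ, ρ = 2 * K + 1 := ⟨_, rfl⟩
  have hρ1 : 1 ≤ ρ := by rw [hρ]; linarith
  have hρ0 : 0 < ρ := by linarith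
  refine ⟨V / (2 * A * ρ ^ (2 * m)), by positivity, ?_⟩
  filter_upwards [hF.deep 1] with k hk w hw hseg
  have := hR.fin (S.M k)
  have hg : Measurable fun z : Fin m → ℂ => ENNReal.ofReal (Real.sqrt (S.G k z)) :=
    ((hF.G_meas k).sqrt).ennreal_ofReal
  have hsA : segAvg volume (fun z => ENNReal.ofReal (Real.sqrt (S.G k z))) 1 w ≤
      ENNReal.ofReal K * volume (Metric.ball (0 : Fin m → ℂ) 1) := by
    rw [hVof, ← ENNReal.ofReal_mul hK0.le, hK, div_mul_cancel₀ _ hV0.ne']
    exact hseg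
  have hgood := half_segments_good volume hg (K := ENNReal.ofReal K)
    (by simpa using hK0) ENNReal.ofReal_ne_top hsA
  have hsub : {v ∈ Metric.ball (0 : Fin m → ℂ) 1 |
      segFrom (fun z => ENNReal.ofReal (Real.sqrt (S.G k z))) w v < 2 * ENNReal.ofReal K} ⊆
      (fun v => w + v) ⁻¹' (Metric.ball w 1 ∩
        S.φ k ⁻¹' (D.ball (S.M k) (S.φ k w) ρ)) := by
    rintro v ⟨hv, hv2⟩
    have hvn : ‖v‖ < 1 := by simpa using hv
    refine ⟨?_, ?_⟩
    · simpa [dist_eq_norm] using hvn
    · have hU : ∀ s ∈ Icc (0 : ℝ) 1, w + s • v ∈ S.U k := by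
        intro s hs
        refine hk w hw ?_
        have h1 : ‖s • v‖ < 1 := by
          rw [norm_smul, Real.norm_of_nonneg hs.1]
          calc s * ‖v‖ ≤ 1 * ‖v‖ := by gcongr; exact hs.2
            _ < 1 := by simpa using hvn
        simpa [dist_eq_norm] using h1
      have h1 := hF.len k w v hU
      have h2 : ENNReal.ofReal (D.dist (S.M k) (S.φ k w) (S.φ k (w + v))) ≤
          ENNReal.ofReal (2 * K) := by
        refine h1.trans ?_
        calc ENNReal.ofReal ‖v‖ * ∫⁻ s in Icc (0 : ℝ) 1,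
              ENNReal.ofReal (Real.sqrt (S.G k (w + s • v)))
            ≤ 1 * (2 * ENNReal.ofReal K) := by
              gcongr
              · exact ENNReal.ofReal_le_one.2 hvn.le
              · exact hv2.le
          _ = ENNReal.ofReal (2 * K) := by
              rw [one_mul, ENNReal.ofReal_mul (by norm_num)]
              simp
      have h3 := (ENNReal.ofReal_le_ofReal_iff (by positivity)).1 h2
      show D.dist (S.M k) (S.φ k w) (S.φ k (w + v)) < ρ
      rw [hρ]
      linarith
  have hpush := hF.push k w hw (D.ball (S.M k) (S.φ k w) ρ)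
    (noncollapse_aux_meas hR (S.M k) (S.φ k w) ρ)
  have hchain : ENNReal.ofReal V ≤
      2 * (ENNReal.ofReal A * D.vol (S.M k) (D.ball (S.M k) (S.φ k w) ρ)) := by
    rw [← hVof]
    refine hgood.trans ?_
    gcongr
    refine (measure_mono hsub).trans ?_
    rw [measure_preimage_add]
    exact hpush
  have hreal : V ≤ 2 * (A * (D.vol (S.M k)).real (D.ball (S.M k) (S.φ k w) ρ)) := by
    have h1 : ENNReal.ofReal V ≤ ENNReal.ofReal
        (2 * (A * (D.vol (S.M k)).real (D.ball (S.M k) (S.φ k w) ρ))) := by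
      rw [ENNReal.ofReal_mul (by norm_num), ENNReal.ofReal_mul hApos.le,
        ofReal_measureReal]
      simpa using hchain
    exact (ENNReal.ofReal_le_ofReal_iff (by positivity)).1 h1
  have hb := hH.bishop (S.M k) (S.φ k w) 1 ρ one_pos hρ1
  rw [div_one] at hb
  rw [div_le_iff₀ (by positivity)]
  calc V ≤ 2 * (A * (D.vol (S.M k)).real (D.ball (S.M k) (S.φ k w) ρ)) := hreal
    _ ≤ 2 * (A * (ρ ^ (2 * m) * (D.vol (S.M k)).real (D.ball (S.M k) (S.φ k w) 1))) := by
        gcongr
    _ = (D.vol (S.M k)).real (D.ball (S.M k) (S.φ k w) 1) * (2 * A * ρ ^ (2 * m)) := by ring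

end Degen

end Pool.Agent.SYN
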