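import Pool.Agent.SYN.Near
import Pool.Agent.SYN.NonColl
import Pool.Agent.SYN.Chart

/-!
The analytic core: on Euclidean balls of every radius in the logarithmic chart the metric is
bounded by a constant which does not depend on the radius.
-/

open MeasureTheory Set Filter
open scoped ENNReal Topology

namespace Pool.Agent.SYN.Degen

variable {m : ℕ} {D : Geo m} (S : Degen D)

/-- the analytic core -/
theorem core {B A a : ℝ} (hR : D.Rules) (hH : D.Heat B) (hG : D.Regularity)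
    (hF : S.Facts A a) : ∃ K : ℝ, ∀ r : ℝ, 0 < r → ∀ᶠ k in atTop, ∃ w ∈ S.W k,
      Metric.ball w r ⊆ S.U k ∧ ∀ u ∈ Metric.ball w r, S.G k u ≤ K := by
  obtain ⟨l, hl, hch⟩ := S.choice hR hH hF
  obtain ⟨v, hv, hnc⟩ := S.noncollapse hR hH hF l hl
  obtain ⟨C, _, hng⟩ := S.near_good hR hH hG hF l v hl hv
  obtain ⟨K₀, hK₀⟩ := hF.G_le C
  have hK : 0 ≤ max K₀ 0 := le_max_right _ _
  refine ⟨max K₀ 0, fun r hr => ?_⟩
  obtain ⟨ρ, hρ1, hρ2⟩ : ∃ ρ : ℝ, 1 ≤ ρ ∧ Real.sqrt (max K₀ 0) * r < ρ :=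
    ⟨max 1 (Real.sqrt (max K₀ 0) * r + 1), le_max_left _ _,
      lt_of_lt_of_le (by linarith) (le_max_right _ _)⟩
  obtain ⟨R, hRpos, hev⟩ := hng ρ hρ1
  filter_upwards [hnc, hev, hF.deep r] with k h1 h2 h3
  obtain ⟨w, hw⟩ := hch k R ρ hRpos (by linarith)
  refine ⟨w, hw.mem, h3 w hw.mem, ?_⟩
  refine S.chart hR hF k w (max K₀ 0) r ρ hK hr (h3 w hw.mem) hρ2 ?_
  intro u hu hu'
  obtain ⟨ha, hb⟩ := h2 w hw (h1 w hw.mem hw.b6) _ hu'
  exact (hK₀ k u hu ha hb).trans (le_max_left _ _)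

end Pool.Agent.SYN.Degen
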