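import Pool.Agent.SYN.Choice

open MeasureTheory Set Filter
open scoped ENNReal Topology

namespace Pool.Agent.SYN

namespace Geo

variable {m : ℕ} {D : Geo m}

theorem isOpen_ball (hR : D.Rules) (M : D.Met) (x : D.X) (r : ℝ) : IsOpen (D.ball M x r) :=
  isOpen_lt (hR.dist_cont M x) continuous_const

theorem meas_ball (hR : D.Rules) (M : D.Met) (x : D.X) (r : ℝ) : MeasurableSet (D.ball M x r) :=
  (isOpen_ball hR M x r).measurableSet

theorem mem_ball {M : D.Met} {x z : D.X} {r : ℝ} : z ∈ D.ball M x r ↔ D.dist M x z < r := Iff.rfl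

theorem ball_subset (hR : D.Rules) {M : D.Met} {x z : D.X} {r s t : ℝ} (hz : z ∈ D.ball M x r)
    (h : r + s ≤ t) : D.ball M z s ⊆ D.ball M x t := by
  intro u hu
  have h1 := hR.dist_tri M x z u
  have h2 : D.dist M x z < r := hz
  have h3 : D.dist M z u < s := hu
  show D.dist M x u < t
  linarith

theorem ball_mono {M : D.Met} {x : D.X} {r s : ℝ} (h : r ≤ s) : D.ball M x r ⊆ D.ball M x s :=
  fun _ hu => lt_of_lt_of_le hu h

theorem real_mono (hR : D.Rules) (M : D.Met) {s t : Set D.X} (h : s ⊆ t) :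
    (D.vol M).real s ≤ (D.vol M).real t := by
  have := hR.fin M
  exact measureReal_mono h

theorem setInt_mono (M : D.Met) {f : D.X → ℝ} (hf : D.Tame M f)
    (h0 : ∀ x, 0 ≤ f x) {s t : Set D.X} (h : s ⊆ t) :
    ∫ x in s, f x ∂(D.vol M) ≤ ∫ x in t, f x ∂(D.vol M) :=
  setIntegral_mono_set hf.2.integrableOn (ae_of_all _ h0)
    (ae_of_all _ h)

theorem markov (M : D.Met) {f : D.X → ℝ} (hf : D.Tame M f)
    (h0 : ∀ x, 0 ≤ f x) {s : Set D.X} (_hs : MeasurableSet s) {η : ℝ} (hη : 0 < η) :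
    (D.vol M).real (s ∩ {x | η ≤ f x}) ≤ (∫ x in s, f x ∂(D.vol M)) / η := by
  rw [le_div_iff₀ hη]
  have h1 := mul_meas_ge_le_integral_of_nonneg (μ := (D.vol M).restrict s) (f := f)
    (ae_of_all _ h0) hf.2.integrableOn η
  have h2 : ((D.vol M).restrict s).real {x | η ≤ f x} = (D.vol M).real (s ∩ {x | η ≤ f x}) := by
    rw [measureReal_restrict_apply (measurableSet_le measurable_const hf.1.measurable), inter_comm]
  rw [h2] at h1
  linarith

/-- `ε`-Young for the gradient of a difference -/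
theorem gr_add_le (hR : D.Rules) (M : D.Met) {f h : D.X → ℝ} (hf : f ∈ D.sm M) (hh : h ∈ D.sm M)
    (x : D.X) : D.gr M f f x ≤
      2 * D.gr M h h x + 2 * D.gr M (fun z => f z - h z) (fun z => f z - h z) x := by
  have hs := hR.sm_sub M f hf h hh
  have e1 : D.gr M (fun z => f z - h z) (fun z => f z - h z) x =
      D.gr M f f x - 2 * D.gr M f h x + D.gr M h h x := by
    rw [hR.gr_sub M f hf h hh _ hs, hR.gr_comm M f, hR.gr_comm M h, hR.gr_sub M f hf h hh f hf,
      hR.gr_sub M f hf h hh h hh, hR.gr_comm M h f]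
    ring
  have e2 : 0 ≤ D.gr M f f x - 4 * D.gr M f h x + 4 * D.gr M h h x := by
    have hcs := hR.gr_cs M f hf h hh x
    have ha := hR.gr_nonneg M f x
    have hb := hR.gr_nonneg M h x
    by_contra hcon
    push Not at hcon
    have h3 : D.gr M f f x + 4 * D.gr M h h x < 4 * D.gr M f h x := by linarith
    have h4 : (D.gr M f f x + 4 * D.gr M h h x) ^ 2 < (4 * D.gr M f h x) ^ 2 := by
      apply pow_lt_pow_left₀ h3 (by positivity) (by norm_num)
    nlinarith [sq_nonneg (D.gr M f f x - 4 * D.gr M h h x)]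
  linarith

end Geo

namespace Degen

variable {m : ℕ} {D : Geo m} (S : Degen D)

theorem le_g1 (hRu : D.Rules) (k : ℕ) (i : Fin (m + 1)) (x : D.X) :
    D.gr (S.M k) (S.y k i) (S.y k i) x ≤ S.g1 k x :=
  Finset.single_le_sum (f := fun i => D.gr (S.M k) (S.y k i) (S.y k i) x)
    (fun _ _ => hRu.gr_nonneg _ _ _) (Finset.mem_univ i)

theorem le_g2 (hRu : D.Rules) (k : ℕ) (R : ℝ) (i : Fin (m + 1)) (x : D.X) :
    D.hess (S.M k) (S.hh k R i) x ≤ S.g2 k R x :=
  Finset.single_le_sum (f := fun i => D.hess (S.M k) (S.hh k R i) x)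
    (fun _ _ => hRu.hess_nonneg _ _ _) (Finset.mem_univ i)

theorem le_g4 (k : ℕ) (R : ℝ) (i : Fin (m + 1)) (x : D.X) :
    |S.ee k R i x| ≤ S.g4 k R x :=
  Finset.single_le_sum (f := fun i => |S.ee k R i x|)
    (fun _ _ => abs_nonneg _) (Finset.mem_univ i)

theorem le_g5 (hRu : D.Rules) (k : ℕ) (R : ℝ) (i : Fin (m + 1)) (x : D.X) :
    D.gr (S.M k) (fun z => Real.arctan (S.ee k R i z)) (fun z => Real.arctan (S.ee k R i z)) x
      ≤ S.g5 k R x :=
  Finset.single_le_sum (f := fun i => D.gr (S.M k) (fun z => Real.arctan (S.ee k R i z))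
    (fun z => Real.arctan (S.ee k R i z)) x)
    (fun _ _ => hRu.gr_nonneg _ _ _) (Finset.mem_univ i)

/-- where `|e| ≤ 1` the gradient of `e` is controlled by that of `arctan e` -/
theorem gr_ee_le {B A a : ℝ} (hRu : D.Rules) (hH : D.Heat B) (hF : S.Facts A a) (k : ℕ) {R : ℝ}
    (hR : 0 < R) (i : Fin (m + 1)) (x : D.X) (h1 : S.g4 k R x ≤ 1) :
    D.gr (S.M k) (S.ee k R i) (S.ee k R i) x ≤ 4 * S.g5 k R x := by
  have he := S.ee_sm hRu hH hF k hR i
  have hat := hRu.sm_arctan _ _ he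
  have e1 : D.gr (S.M k) (fun z => Real.arctan (S.ee k R i z))
      (fun z => Real.arctan (S.ee k R i z)) x =
      (1 + S.ee k R i x ^ 2)⁻¹ * ((1 + S.ee k R i x ^ 2)⁻¹ *
        D.gr (S.M k) (S.ee k R i) (S.ee k R i) x) := by
    rw [hRu.gr_arctan _ _ he _ hat, hRu.gr_comm, hRu.gr_arctan _ _ he _ he]
  have h2 : |S.ee k R i x| ≤ 1 := (S.le_g4 k R i x).trans h1
  have h3 : S.ee k R i x ^ 2 ≤ 1 := by
    have := sq_le_one_iff_abs_le_one (S.ee k R i x)
    exact this.2 h2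
  have h4 := S.le_g5 hRu k R i x
  rw [e1] at h4
  have hg := hRu.gr_nonneg (S.M k) (S.ee k R i) x
  have hpos : 0 < 1 + S.ee k R i x ^ 2 := by positivity
  have h5 : (1 / 2 : ℝ) ≤ (1 + S.ee k R i x ^ 2)⁻¹ := by
    rw [one_div]
    apply inv_anti₀ hpos
    linarith
  have h6 : (1 / 2 : ℝ) * ((1 / 2) * D.gr (S.M k) (S.ee k R i) (S.ee k R i) x) ≤
      (1 + S.ee k R i x ^ 2)⁻¹ * ((1 + S.ee k R i x ^ 2)⁻¹ *
        D.gr (S.M k) (S.ee k R i) (S.ee k R i) x) := by
    gcongr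
  linarith

end Degen

end Pool.Agent.SYN
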