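import Pool.Agent.SYN.Good
import Pool.Agent.SYM.Meas

/-!
Choice of a good point of the chart (Chebyshev).
-/

open MeasureTheory Set Filter
open scoped ENNReal Topology

namespace Pool.Agent.SYN

open Pool.Agent.SYM (cheb seg)

namespace Geo

variable {m : ℕ} {D : Geo m}

theorem Tame.abs {M : D.Met} {f : D.X → ℝ} (h : D.Tame M f) : D.Tame M (fun x => |f x|) :=
  ⟨h.1.abs, h.2.abs⟩

theorem Tame.neg {M : D.Met} {f : D.X → ℝ} (h : D.Tame M f) : D.Tame M (fun x => - f x) :=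
  ⟨h.1.neg, h.2.neg⟩

theorem Tame.add {M : D.Met} {f g : D.X → ℝ} (h : D.Tame M f) (h' : D.Tame M g) :
    D.Tame M (fun x => f x + g x) :=
  ⟨h.1.add h'.1, h.2.add h'.2⟩

theorem Tame.const_mul {M : D.Met} {f : D.X → ℝ} (h : D.Tame M f) (c : ℝ) :
    D.Tame M (fun x => c * f x) :=
  ⟨continuous_const.mul h.1, h.2.const_mul c⟩

theorem Tame.sum {M : D.Met} {n : ℕ} {f : Fin n → D.X → ℝ} (h : ∀ i, D.Tame M (f i)) :
    D.Tame M (fun x => ∑ i, f i x) :=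
  ⟨continuous_finsetSum _ fun i _ => (h i).1, integrable_finsetSum _ fun i _ => (h i).2⟩

theorem Rules.tame_of_bdd (hR : D.Rules) (M : D.Met) {f : D.X → ℝ} (hf : Continuous f) {C : ℝ}
    (hC : ∀ x, |f x| ≤ C) : D.Tame M f := by
  have := hR.fin M
  exact ⟨hf, Integrable.of_bound hf.measurable.aestronglyMeasurable C
    (ae_of_all _ fun x => by rw [Real.norm_eq_abs]; exact hC x)⟩

theorem Rules.tame_zero (hR : D.Rules) (M : D.Met) : D.Tame M (fun _ => 0) :=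
  hR.tame_of_bdd M continuous_const (C := 0) (by simp)

theorem Rules.tame_sm (hR : D.Rules) {M : D.Met} {f : D.X → ℝ} (hf : f ∈ D.sm M) :
    D.Tame M f := by
  obtain ⟨C, hC⟩ := hR.sm_bdd M f hf
  exact hR.tame_of_bdd M (hR.sm_cont M f hf) hC

theorem Rules.tame_lap (hR : D.Rules) {M : D.Met} {f : D.X → ℝ} (hf : f ∈ D.sm M) :
    D.Tame M (D.lap M f) := by
  obtain ⟨C, hC⟩ := hR.lap_bdd M f hf
  exact hR.tame_of_bdd M (hR.lap_cont M f hf) hC

theorem Rules.tame_mul_lap (hR : D.Rules) {M : D.Met} {f h : D.X → ℝ} (hf : f ∈ D.sm M)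
    (hh : h ∈ D.sm M) : D.Tame M (fun x => f x * D.lap M h x) := by
  obtain ⟨C, hC⟩ := hR.sm_bdd M f hf
  obtain ⟨C', hC'⟩ := hR.lap_bdd M h hh
  refine hR.tame_of_bdd M ((hR.sm_cont M f hf).mul (hR.lap_cont M h hh)) (C := C * C') fun x => ?_
  rw [abs_mul]
  exact mul_le_mul (hC x) (hC' x) (abs_nonneg _) ((abs_nonneg _).trans (hC x))

theorem Rules.tame_gr (hR : D.Rules) {M : D.Met} {f h : D.X → ℝ} (hf : f ∈ D.sm M)
    (hh : h ∈ D.sm M) : D.Tame M (D.gr M f h) := by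
  obtain ⟨C, hC⟩ := hR.gr_bdd M f hf
  obtain ⟨C', hC'⟩ := hR.gr_bdd M h hh
  refine hR.tame_of_bdd M (hR.gr_cont M f hf h hh) (C := Real.sqrt (C * C')) fun x => ?_
  rw [← Real.sqrt_sq_eq_abs]
  exact Real.sqrt_le_sqrt ((hR.gr_cs M f hf h hh x).trans
    (mul_le_mul (hC x) (hC' x) (hR.gr_nonneg M h x) ((hR.gr_nonneg M f x).trans (hC x))))

theorem Heat.nonneg {B : ℝ} (hR : D.Rules) (hH : D.Heat B) (M : D.Met) {s : ℝ} (hs : 0 < s)
    {f : D.X → ℝ} (hf : D.Tame M f) (h0 : ∀ x, 0 ≤ f x) (x : D.X) : 0 ≤ D.heat M s f x := by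
  have h := hH.mono M s hs (fun _ => 0) f (hR.tame_zero M) hf h0 x
  rwa [hH.zero] at h

theorem Heat.abs_le {B : ℝ} (hH : D.Heat B) (M : D.Met) {s : ℝ} (hs : 0 < s) {f : D.X → ℝ}
    (hf : D.Tame M f) (x : D.X) : |D.heat M s f x| ≤ D.heat M s (fun z => |f z|) x := by
  rw [_root_.abs_le]
  constructor
  · have h := hH.mono M s hs (fun z => - f z) (fun z => |f z|) hf.neg hf.abs
      (fun z => neg_le_abs _) x
    rw [hH.neg] at h
    linarith
  · exact hH.mono M s hs f (fun z => |f z|) hf hf.abs (fun z => le_abs_self _) x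

end Geo

namespace Degen

variable {m : ℕ} {D : Geo m} (S : Degen D)

/-- the Laplacians of the `y_i` are small in `L¹` -/
theorem int_lap_y {A a : ℝ} (hR : D.Rules) (hF : S.Facts A a) (k : ℕ) (i : Fin (m + 1)) :
    ∫ x, |D.lap (S.M k) (S.y k i) x| ∂(D.vol (S.M k)) ≤ A ^ 2 * S.L k ^ m / S.L k := by
  have h1 : ∫ x, |D.lap (S.M k) (S.y k i) x| ∂(D.vol (S.M k)) ≤
      ∫ x, A * S.th k x ∂(D.vol (S.M k)) := by
    refine integral_mono (hR.tame_lap (hF.y_sm k i)).abs.2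
      ((hF.th_tame k).const_mul A).2 fun x => hF.lap_le k i x
  rw [integral_const_mul] at h1
  have h2 := mul_le_mul_of_nonneg_left (hF.th_int k) hF.A_pos.le
  calc _ ≤ _ := h1
    _ ≤ A * (A * S.L k ^ m / S.L k) := h2
    _ = A ^ 2 * S.L k ^ m / S.L k := by ring

/-- the energy of the `y_i` -/
theorem int_gr_y {A a : ℝ} (hR : D.Rules) (hF : S.Facts A a) (k : ℕ) (i : Fin (m + 1)) :
    ∫ x, D.gr (S.M k) (S.y k i) (S.y k i) x ∂(D.vol (S.M k)) ≤ A ^ 3 * S.L k ^ m := by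
  have hL : 0 < S.L k := lt_of_lt_of_le one_pos (hF.L_one k)
  rw [hR.ibp _ _ (hF.y_sm k i) _ (hF.y_sm k i), ← integral_neg]
  have hl := hR.tame_lap (hF.y_sm k i)
  have h1 : ∫ x, -(S.y k i x * D.lap (S.M k) (S.y k i) x) ∂(D.vol (S.M k)) ≤
      ∫ x, (A * S.L k) * |D.lap (S.M k) (S.y k i) x| ∂(D.vol (S.M k)) := by
    refine integral_mono (hR.tame_mul_lap (hF.y_sm k i) (hF.y_sm k i)).neg.2
      (hl.abs.const_mul _).2 fun x => ?_
    have h0 := hF.y_nonneg k i x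
    have h2 := hF.y_le k i x
    calc -(S.y k i x * D.lap (S.M k) (S.y k i) x) ≤ |S.y k i x * D.lap (S.M k) (S.y k i) x| :=
          neg_le_abs _
      _ = S.y k i x * |D.lap (S.M k) (S.y k i) x| := by rw [abs_mul, abs_of_nonneg h0]
      _ ≤ (A * S.L k) * |D.lap (S.M k) (S.y k i) x| := by gcongr
  rw [integral_const_mul] at h1
  have hAL : 0 ≤ A * S.L k := mul_nonneg hF.A_pos.le hL.le
  calc _ ≤ _ := h1
    _ ≤ (A * S.L k) * (A ^ 2 * S.L k ^ m / S.L k) :=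
        mul_le_mul_of_nonneg_left (S.int_lap_y hR hF k i) hAL
    _ = A ^ 3 * S.L k ^ m := by field_simp

theorem hh_sm {B A a : ℝ} (hH : D.Heat B) (hF : S.Facts A a) (k : ℕ) {R : ℝ} (hR0 : 0 < R)
    (i : Fin (m + 1)) : S.hh k R i ∈ D.sm (S.M k) :=
  hH.smooth _ _ (by positivity) _ (hF.y_sm k i)

theorem ee_sm {B A a : ℝ} (hR : D.Rules) (hH : D.Heat B) (hF : S.Facts A a) (k : ℕ) {R : ℝ}
    (hR0 : 0 < R) (i : Fin (m + 1)) : S.ee k R i ∈ D.sm (S.M k) :=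
  hR.sm_sub _ _ (hF.y_sm k i) _ (S.hh_sm hH hF k hR0 i)

theorem int_ee {B A a : ℝ} (hR : D.Rules) (hH : D.Heat B) (hF : S.Facts A a) (k : ℕ) {R : ℝ}
    (hR0 : 0 < R) (i : Fin (m + 1)) :
    ∫ x, |S.ee k R i x| ∂(D.vol (S.M k)) ≤ R ^ 2 * (A ^ 2 * S.L k ^ m / S.L k) :=
  (hH.near (S.M k) (R ^ 2) (by positivity) _ (hF.y_sm k i)).trans
    (mul_le_mul_of_nonneg_left (S.int_lap_y hR hF k i) (by positivity))

theorem int_hess {B A a : ℝ} (hR : D.Rules) (hH : D.Heat B) (hF : S.Facts A a) (k : ℕ) {R : ℝ}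
    (hR0 : 0 < R) (i : Fin (m + 1)) :
    ∫ x, D.hess (S.M k) (S.hh k R i) x ∂(D.vol (S.M k)) ≤ (R ^ 2)⁻¹ * (A ^ 3 * S.L k ^ m) :=
  (hH.bochner (S.M k) (R ^ 2) (by positivity) _ (hF.y_sm k i)).trans
    (mul_le_mul_of_nonneg_left (S.int_gr_y hR hF k i) (by positivity))

theorem int_lap_ee {B A a : ℝ} (hR : D.Rules) (hH : D.Heat B) (hF : S.Facts A a) (k : ℕ) {R : ℝ}
    (hR0 : 0 < R) (i : Fin (m + 1)) :
    ∫ x, |D.lap (S.M k) (S.ee k R i) x| ∂(D.vol (S.M k)) ≤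
      2 * (A ^ 2 * S.L k ^ m / S.L k) := by
  have hR2 : (0 : ℝ) < R ^ 2 := by positivity
  have hy := hF.y_sm k i
  have hl := hR.tame_lap hy
  have hhc := hH.cont (S.M k) (R ^ 2) hR2 _ hl.abs
  have e1 : ∀ x, |D.lap (S.M k) (S.ee k R i) x| ≤ |D.lap (S.M k) (S.y k i) x| +
      D.heat (S.M k) (R ^ 2) (fun z => |D.lap (S.M k) (S.y k i) z|) x := by
    intro x
    have h1 : D.lap (S.M k) (S.ee k R i) x = D.lap (S.M k) (S.y k i) x -
        D.lap (S.M k) (S.hh k R i) x :=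
      hR.lap_sub _ _ hy _ (S.hh_sm hH hF k hR0 i) x
    rw [h1]
    unfold hh
    rw [hH.lap _ _ hR2 _ hy]
    refine (abs_sub _ _).trans ?_
    gcongr
    exact hH.abs_le _ hR2 hl x
  have h2 : ∫ x, |D.lap (S.M k) (S.ee k R i) x| ∂(D.vol (S.M k)) ≤
      ∫ x, (|D.lap (S.M k) (S.y k i) x| +
        D.heat (S.M k) (R ^ 2) (fun z => |D.lap (S.M k) (S.y k i) z|) x) ∂(D.vol (S.M k)) :=
    integral_mono (hR.tame_lap (S.ee_sm hR hH hF k hR0 i)).abs.2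
      (hl.abs.add hhc).2 e1
  rw [integral_add hl.abs.2 hhc.2,
    hH.mass _ _ hR2 _ hl.abs] at h2
  have h3 := S.int_lap_y hR hF k i
  linarith

theorem int_arctan {B A a : ℝ} (hR : D.Rules) (hH : D.Heat B) (hF : S.Facts A a) (k : ℕ) {R : ℝ}
    (hR0 : 0 < R) (i : Fin (m + 1)) :
    ∫ x, D.gr (S.M k) (fun z => Real.arctan (S.ee k R i z))
      (fun z => Real.arctan (S.ee k R i z)) x ∂(D.vol (S.M k)) ≤
      4 * (A ^ 2 * S.L k ^ m / S.L k) := by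
  have he := S.ee_sm hR hH hF k hR0 i
  have hae := hR.sm_arctan _ _ he
  have hl := hR.tame_lap he
  have e0 : ∀ x, D.gr (S.M k) (fun z => Real.arctan (S.ee k R i z))
      (fun z => Real.arctan (S.ee k R i z)) x ≤
      D.gr (S.M k) (fun z => Real.arctan (S.ee k R i z)) (S.ee k R i) x := by
    intro x
    have hp : (0 : ℝ) < 1 + S.ee k R i x ^ 2 := by positivity
    have h1 : D.gr (S.M k) (fun z => Real.arctan (S.ee k R i z)) (S.ee k R i) x =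
        (1 + S.ee k R i x ^ 2)⁻¹ * D.gr (S.M k) (S.ee k R i) (S.ee k R i) x :=
      hR.gr_arctan _ _ he _ he x
    have h0 : 0 ≤ D.gr (S.M k) (fun z => Real.arctan (S.ee k R i z)) (S.ee k R i) x := by
      rw [h1]
      exact mul_nonneg (inv_nonneg.2 hp.le) (hR.gr_nonneg _ _ _)
    have h2 : D.gr (S.M k) (fun z => Real.arctan (S.ee k R i z))
        (fun z => Real.arctan (S.ee k R i z)) x = (1 + S.ee k R i x ^ 2)⁻¹ *
        D.gr (S.M k) (fun z => Real.arctan (S.ee k R i z)) (S.ee k R i) x := by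
      rw [hR.gr_arctan _ _ he _ hae x, hR.gr_comm (S.M k) (S.ee k R i)]
    rw [h2]
    have h3 : (1 + S.ee k R i x ^ 2)⁻¹ ≤ 1 := by
      apply inv_le_one_of_one_le₀
      nlinarith [sq_nonneg (S.ee k R i x)]
    calc _ ≤ 1 * D.gr (S.M k) (fun z => Real.arctan (S.ee k R i z)) (S.ee k R i) x := by gcongr
      _ = _ := one_mul _
  have e1 : ∫ x, D.gr (S.M k) (fun z => Real.arctan (S.ee k R i z))
      (fun z => Real.arctan (S.ee k R i z)) x ∂(D.vol (S.M k)) ≤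
      ∫ x, D.gr (S.M k) (fun z => Real.arctan (S.ee k R i z)) (S.ee k R i) x
        ∂(D.vol (S.M k)) :=
    integral_mono (hR.tame_gr hae hae).2 (hR.tame_gr hae he).2 e0
  rw [hR.ibp _ _ hae _ he, ← integral_neg] at e1
  have e2 : ∫ x, -(Real.arctan (S.ee k R i x) * D.lap (S.M k) (S.ee k R i) x)
      ∂(D.vol (S.M k)) ≤ ∫ x, 2 * |D.lap (S.M k) (S.ee k R i) x| ∂(D.vol (S.M k)) := by
    refine integral_mono (hR.tame_mul_lap hae he).neg.2 (hl.abs.const_mul _).2 fun x => ?_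
    have hab : |Real.arctan (S.ee k R i x)| ≤ 2 := by
      rw [abs_le]
      have h1 := Real.arctan_lt_pi_div_two (S.ee k R i x)
      have h2 := Real.neg_pi_div_two_lt_arctan (S.ee k R i x)
      have h3 := Real.pi_le_four
      constructor <;> linarith
    calc -(Real.arctan (S.ee k R i x) * D.lap (S.M k) (S.ee k R i) x) ≤
          |Real.arctan (S.ee k R i x) * D.lap (S.M k) (S.ee k R i) x| := neg_le_abs _
      _ = |Real.arctan (S.ee k R i x)| * |D.lap (S.M k) (S.ee k R i) x| := abs_mul _ _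
      _ ≤ 2 * |D.lap (S.M k) (S.ee k R i) x| := by gcongr
  rw [integral_const_mul] at e2
  have e3 := S.int_lap_ee hR hH hF k hR0 i
  linarith

/-- the seven continuous functions -/
noncomputable def FF (k : ℕ) (R ρ : ℝ) (j : Fin 7) : D.X → ℝ :=
  match j with
  | 0 => D.heat (S.M k) (2 * R ^ 2) (S.g1 k)
  | 1 => fun x => R ^ 2 * D.heat (S.M k) ((4 * ρ) ^ 2) (S.g2 k R) x
  | 2 => fun x => S.L k * D.heat (S.M k) (2 * R ^ 2) (S.th k) x
  | 3 => fun x => S.L k * D.heat (S.M k) ((4 * ρ) ^ 2) (S.th k) x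
  | 4 => fun x => S.L k / R ^ 2 * S.g4 k R x
  | 5 => fun x => S.L k / R ^ 2 * D.heat (S.M k) ((4 * ρ) ^ 2) (S.g4 k R) x
  | 6 => fun x => S.L k * D.heat (S.M k) ((4 * ρ) ^ 2) (S.g5 k R) x

theorem g1_cont {A a : ℝ} (hR : D.Rules) (hF : S.Facts A a) (k : ℕ) :
    D.Tame (S.M k) (S.g1 k) :=
  Geo.Tame.sum fun i => hR.tame_gr (hF.y_sm k i) (hF.y_sm k i)

theorem g2_cont {B A a : ℝ} (hR : D.Rules) (hH : D.Heat B) (hF : S.Facts A a) (k : ℕ) {R : ℝ}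
    (hR0 : 0 < R) : D.Tame (S.M k) (S.g2 k R) :=
  Geo.Tame.sum fun i => hR.hess_tame _ _ (S.hh_sm hH hF k hR0 i)

theorem g4_cont {B A a : ℝ} (hR : D.Rules) (hH : D.Heat B) (hF : S.Facts A a) (k : ℕ) {R : ℝ}
    (hR0 : 0 < R) : D.Tame (S.M k) (S.g4 k R) :=
  Geo.Tame.sum fun i => (hR.tame_sm (S.ee_sm hR hH hF k hR0 i)).abs

theorem g5_cont {B A a : ℝ} (hR : D.Rules) (hH : D.Heat B) (hF : S.Facts A a) (k : ℕ) {R : ℝ}
    (hR0 : 0 < R) : D.Tame (S.M k) (S.g5 k R) :=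
  Geo.Tame.sum fun i =>
    have h := hR.sm_arctan _ _ (S.ee_sm hR hH hF k hR0 i)
    hR.tame_gr h h

theorem g1_nonneg (hR : D.Rules) (k : ℕ) (x : D.X) : 0 ≤ S.g1 k x :=
  Finset.sum_nonneg fun _ _ => hR.gr_nonneg _ _ _

theorem g2_nonneg (hR : D.Rules) (k : ℕ) (R : ℝ) (x : D.X) : 0 ≤ S.g2 k R x :=
  Finset.sum_nonneg fun _ _ => hR.hess_nonneg _ _ _

theorem g4_nonneg (k : ℕ) (R : ℝ) (x : D.X) : 0 ≤ S.g4 k R x :=
  Finset.sum_nonneg fun _ _ => abs_nonneg _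

theorem g5_nonneg (hR : D.Rules) (k : ℕ) (R : ℝ) (x : D.X) : 0 ≤ S.g5 k R x :=
  Finset.sum_nonneg fun _ _ => hR.gr_nonneg _ _ _

/-- a sum of `m + 1` integrals -/
theorem sum_int_le {M : D.Met} {f : Fin (m + 1) → D.X → ℝ} {c : ℝ}
    (hf : ∀ i, D.Tame M (f i)) (h : ∀ i, ∫ x, f i x ∂(D.vol M) ≤ c) :
    ∫ x, ∑ i, f i x ∂(D.vol M) ≤ (m + 1) * c := by
  rw [integral_finsetSum _ fun i _ => (hf i).2]
  calc ∑ i, ∫ x, f i x ∂(D.vol M) ≤ ∑ _i : Fin (m + 1), c := Finset.sum_le_sum fun i _ => h i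
    _ = (m + 1) * c := by simp

theorem int_g1 {A a : ℝ} (hR : D.Rules) (hF : S.Facts A a) (k : ℕ) :
    ∫ x, S.g1 k x ∂(D.vol (S.M k)) ≤ (m + 1) * (A ^ 3 * S.L k ^ m) :=
  sum_int_le (fun i => hR.tame_gr (hF.y_sm k i) (hF.y_sm k i)) fun i => S.int_gr_y hR hF k i

theorem int_g2 {B A a : ℝ} (hR : D.Rules) (hH : D.Heat B) (hF : S.Facts A a) (k : ℕ) {R : ℝ}
    (hR0 : 0 < R) :
    ∫ x, S.g2 k R x ∂(D.vol (S.M k)) ≤ (m + 1) * ((R ^ 2)⁻¹ * (A ^ 3 * S.L k ^ m)) :=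
  sum_int_le (fun i => hR.hess_tame _ _ (S.hh_sm hH hF k hR0 i))
    fun i => S.int_hess hR hH hF k hR0 i

theorem int_g4 {B A a : ℝ} (hR : D.Rules) (hH : D.Heat B) (hF : S.Facts A a) (k : ℕ) {R : ℝ}
    (hR0 : 0 < R) :
    ∫ x, S.g4 k R x ∂(D.vol (S.M k)) ≤ (m + 1) * (R ^ 2 * (A ^ 2 * S.L k ^ m / S.L k)) :=
  sum_int_le (fun i => (hR.tame_sm (S.ee_sm hR hH hF k hR0 i)).abs)
    fun i => S.int_ee hR hH hF k hR0 i

theorem int_g5 {B A a : ℝ} (hR : D.Rules) (hH : D.Heat B) (hF : S.Facts A a) (k : ℕ) {R : ℝ}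
    (hR0 : 0 < R) :
    ∫ x, S.g5 k R x ∂(D.vol (S.M k)) ≤ (m + 1) * (4 * (A ^ 2 * S.L k ^ m / S.L k)) :=
  sum_int_le (fun i => hR.tame_gr (hR.sm_arctan _ _ (S.ee_sm hR hH hF k hR0 i))
    (hR.sm_arctan _ _ (S.ee_sm hR hH hF k hR0 i)))
    fun i => S.int_arctan hR hH hF k hR0 i

theorem FF_cont {B A a : ℝ} (hR : D.Rules) (hH : D.Heat B) (hF : S.Facts A a) (k : ℕ) {R ρ : ℝ}
    (hR0 : 0 < R) (hρ : 0 < ρ) (j : Fin 7) : D.Tame (S.M k) (S.FF k R ρ j) := by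
  have hR2 : (0 : ℝ) < 2 * R ^ 2 := by positivity
  have hρ2 : (0 : ℝ) < (4 * ρ) ^ 2 := by positivity
  have c1 := S.g1_cont hR hF k
  have c2 := S.g2_cont hR hH hF k hR0
  have c4 := S.g4_cont hR hH hF k hR0
  have c5 := S.g5_cont hR hH hF k hR0
  match j with
  | 0 => exact hH.cont _ _ hR2 _ c1
  | 1 => exact (hH.cont _ _ hρ2 _ c2).const_mul _
  | 2 => exact (hH.cont _ _ hR2 _ (hF.th_tame k)).const_mul _
  | 3 => exact (hH.cont _ _ hρ2 _ (hF.th_tame k)).const_mul _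
  | 4 => exact c4.const_mul _
  | 5 => exact (hH.cont _ _ hρ2 _ c4).const_mul _
  | 6 => exact (hH.cont _ _ hρ2 _ c5).const_mul _

theorem FF_nonneg {B A a : ℝ} (hR : D.Rules) (hH : D.Heat B) (hF : S.Facts A a) (k : ℕ)
    {R ρ : ℝ} (hR0 : 0 < R) (hρ : 0 < ρ) (j : Fin 7) (x : D.X) : 0 ≤ S.FF k R ρ j x := by
  have hR2 : (0 : ℝ) < 2 * R ^ 2 := by positivity
  have hρ2 : (0 : ℝ) < (4 * ρ) ^ 2 := by positivity
  have hL : 0 < S.L k := lt_of_lt_of_le one_pos (hF.L_one k)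
  have c1 := S.g1_cont hR hF k
  have c2 := S.g2_cont hR hH hF k hR0
  have c4 := S.g4_cont hR hH hF k hR0
  have c5 := S.g5_cont hR hH hF k hR0
  match j with
  | 0 => exact hH.nonneg hR _ hR2 c1 (S.g1_nonneg hR k) x
  | 1 => exact mul_nonneg (by positivity) (hH.nonneg hR _ hρ2 c2 (S.g2_nonneg hR k R) x)
  | 2 => exact mul_nonneg hL.le (hH.nonneg hR _ hR2 (hF.th_tame k) (hF.th_nonneg k) x)
  | 3 => exact mul_nonneg hL.le (hH.nonneg hR _ hρ2 (hF.th_tame k) (hF.th_nonneg k) x)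
  | 4 => exact mul_nonneg (by positivity) (S.g4_nonneg k R x)
  | 5 => exact mul_nonneg (by positivity) (hH.nonneg hR _ hρ2 c4 (S.g4_nonneg k R) x)
  | 6 => exact mul_nonneg hL.le (hH.nonneg hR _ hρ2 c5 (S.g5_nonneg hR k R) x)

/-- the common bound of the seven integrals -/
theorem FF_int {B A a : ℝ} (hR : D.Rules) (hH : D.Heat B) (hF : S.Facts A a) (k : ℕ)
    {R ρ : ℝ} (hR0 : 0 < R) (hρ : 0 < ρ) (j : Fin 7) :
    ∫ x, S.FF k R ρ j x ∂(D.vol (S.M k)) ≤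
      ((m + 1) * A ^ 3 + 4 * (m + 1) * A ^ 2 + A) * S.L k ^ m := by
  have hR2 : (0 : ℝ) < 2 * R ^ 2 := by positivity
  have hρ2 : (0 : ℝ) < (4 * ρ) ^ 2 := by positivity
  have hL : 0 < S.L k := lt_of_lt_of_le one_pos (hF.L_one k)
  have hA := hF.A_pos
  have c1 := S.g1_cont hR hF k
  have c2 := S.g2_cont hR hH hF k hR0
  have c4 := S.g4_cont hR hH hF k hR0
  have c5 := S.g5_cont hR hH hF k hR0
  have i1 := S.int_g1 hR hF k
  have i2 := S.int_g2 hR hH hF k hR0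
  have i4 := S.int_g4 hR hH hF k hR0
  have i5 := S.int_g5 hR hH hF k hR0
  have i3 := hF.th_int k
  have hLm : 0 < S.L k ^ m := by positivity
  have p1 : 0 ≤ (m + 1 : ℝ) * A ^ 3 * S.L k ^ m := by positivity
  have p2 : 0 ≤ (m + 1 : ℝ) * A ^ 2 * S.L k ^ m := by positivity
  have p3 : 0 ≤ A * S.L k ^ m := by positivity
  match j with
  | 0 =>
    change ∫ x, D.heat (S.M k) (2 * R ^ 2) (S.g1 k) x ∂(D.vol (S.M k)) ≤ _
    rw [hH.mass _ _ hR2 _ c1]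
    nlinarith
  | 1 =>
    change ∫ x, R ^ 2 * D.heat (S.M k) ((4 * ρ) ^ 2) (S.g2 k R) x ∂(D.vol (S.M k)) ≤ _
    rw [integral_const_mul, hH.mass _ _ hρ2 _ c2]
    have h : R ^ 2 * ∫ x, S.g2 k R x ∂(D.vol (S.M k)) ≤
        R ^ 2 * ((m + 1) * ((R ^ 2)⁻¹ * (A ^ 3 * S.L k ^ m))) :=
      mul_le_mul_of_nonneg_left i2 (by positivity)
    have e : R ^ 2 * ((m + 1) * ((R ^ 2)⁻¹ * (A ^ 3 * S.L k ^ m))) =
        (m + 1) * A ^ 3 * S.L k ^ m := by field_simp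
    rw [e] at h
    nlinarith
  | 2 =>
    change ∫ x, S.L k * D.heat (S.M k) (2 * R ^ 2) (S.th k) x ∂(D.vol (S.M k)) ≤ _
    rw [integral_const_mul, hH.mass _ _ hR2 _ (hF.th_tame k)]
    have h : S.L k * ∫ x, S.th k x ∂(D.vol (S.M k)) ≤ S.L k * (A * S.L k ^ m / S.L k) :=
      mul_le_mul_of_nonneg_left i3 hL.le
    have e : S.L k * (A * S.L k ^ m / S.L k) = A * S.L k ^ m := by field_simp
    rw [e] at h
    nlinarith
  | 3 =>
    change ∫ x, S.L k * D.heat (S.M k) ((4 * ρ) ^ 2) (S.th k) x ∂(D.vol (S.M k)) ≤ _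
    rw [integral_const_mul, hH.mass _ _ hρ2 _ (hF.th_tame k)]
    have h : S.L k * ∫ x, S.th k x ∂(D.vol (S.M k)) ≤ S.L k * (A * S.L k ^ m / S.L k) :=
      mul_le_mul_of_nonneg_left i3 hL.le
    have e : S.L k * (A * S.L k ^ m / S.L k) = A * S.L k ^ m := by field_simp
    rw [e] at h
    nlinarith
  | 4 =>
    change ∫ x, S.L k / R ^ 2 * S.g4 k R x ∂(D.vol (S.M k)) ≤ _
    rw [integral_const_mul]
    have h : S.L k / R ^ 2 * ∫ x, S.g4 k R x ∂(D.vol (S.M k)) ≤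
        S.L k / R ^ 2 * ((m + 1) * (R ^ 2 * (A ^ 2 * S.L k ^ m / S.L k))) :=
      mul_le_mul_of_nonneg_left i4 (by positivity)
    have e : S.L k / R ^ 2 * ((m + 1) * (R ^ 2 * (A ^ 2 * S.L k ^ m / S.L k))) =
        (m + 1) * A ^ 2 * S.L k ^ m := by field_simp
    rw [e] at h
    nlinarith
  | 5 =>
    change ∫ x, S.L k / R ^ 2 * D.heat (S.M k) ((4 * ρ) ^ 2) (S.g4 k R) x
      ∂(D.vol (S.M k)) ≤ _
    rw [integral_const_mul, hH.mass _ _ hρ2 _ c4]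
    have h : S.L k / R ^ 2 * ∫ x, S.g4 k R x ∂(D.vol (S.M k)) ≤
        S.L k / R ^ 2 * ((m + 1) * (R ^ 2 * (A ^ 2 * S.L k ^ m / S.L k))) :=
      mul_le_mul_of_nonneg_left i4 (by positivity)
    have e : S.L k / R ^ 2 * ((m + 1) * (R ^ 2 * (A ^ 2 * S.L k ^ m / S.L k))) =
        (m + 1) * A ^ 2 * S.L k ^ m := by field_simp
    rw [e] at h
    nlinarith
  | 6 =>
    change ∫ x, S.L k * D.heat (S.M k) ((4 * ρ) ^ 2) (S.g5 k R) x ∂(D.vol (S.M k)) ≤ _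
    rw [integral_const_mul, hH.mass _ _ hρ2 _ c5]
    have h : S.L k * ∫ x, S.g5 k R x ∂(D.vol (S.M k)) ≤
        S.L k * ((m + 1) * (4 * (A ^ 2 * S.L k ^ m / S.L k))) :=
      mul_le_mul_of_nonneg_left i5 hL.le
    have e : S.L k * ((m + 1) * (4 * (A ^ 2 * S.L k ^ m / S.L k))) =
        4 * ((m + 1) * A ^ 2 * S.L k ^ m) := by field_simp
    rw [e] at h
    nlinarith

/-- the average length of segments starting at `w` -/
noncomputable def segl (k : ℕ) (w : Fin m → ℂ) : ℝ≥0∞ :=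
  ∫⁻ v in Metric.ball (0 : Fin m → ℂ) 1, ∫⁻ s in Icc (0 : ℝ) 1,
    ENNReal.ofReal (Real.sqrt (S.G k (w + s • v)))

theorem segl_meas {A a : ℝ} (hF : S.Facts A a) (k : ℕ) : Measurable (S.segl k) := by
  have hg : Measurable (fun u : Fin m → ℂ => ENNReal.ofReal (Real.sqrt (S.G k u))) :=
    (hF.G_meas k).sqrt.ennreal_ofReal
  unfold segl
  have h1 : Measurable (fun p : (Fin m → ℂ) × (Fin m → ℂ) => ∫⁻ s in Icc (0 : ℝ) 1,
      ENNReal.ofReal (Real.sqrt (S.G k (p.1 + s • p.2)))) := by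
    refine Measurable.lintegral_prod_right' (f := fun q : ((Fin m → ℂ) × (Fin m → ℂ)) × ℝ =>
      ENNReal.ofReal (Real.sqrt (S.G k (q.1.1 + q.2 • q.1.2)))) ?_
    exact hg.comp (by fun_prop)
  exact h1.lintegral_prod_right'

theorem int_segl {A a : ℝ} (hF : S.Facts A a) (k : ℕ) :
    ∫⁻ w in S.W k, S.segl k w ≤ volume (Metric.ball (0 : Fin m → ℂ) 1) *
      ENNReal.ofReal (2 * A * S.L k ^ m) := by
  have hL : 0 < S.L k := lt_of_lt_of_le one_pos (hF.L_one k)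
  have hA := hF.A_pos
  have hg : Measurable (fun u : Fin m → ℂ => ENNReal.ofReal (Real.sqrt (S.G k u))) :=
    (hF.G_meas k).sqrt.ennreal_ofReal
  have h1 := seg (volume : Measure (Fin m → ℂ)) _ hg (S.W k) (hF.W_meas k)
  refine h1.trans ?_
  gcongr
  calc ∫⁻ w in Metric.thickening 1 (S.W k), ENNReal.ofReal (Real.sqrt (S.G k w))
      ≤ ∫⁻ w in Metric.thickening 1 (S.W k), (1 + ENNReal.ofReal (S.G k w)) := by
        refine lintegral_mono fun w => ?_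
        have h0 := hF.G_nonneg k w
        rw [← ENNReal.ofReal_one, ← ENNReal.ofReal_add zero_le_one h0]
        apply ENNReal.ofReal_le_ofReal
        have h2 := Real.sq_sqrt h0
        nlinarith [Real.sqrt_nonneg (S.G k w), sq_nonneg (Real.sqrt (S.G k w) - 1)]
    _ = volume (Metric.thickening 1 (S.W k)) +
        ∫⁻ w in Metric.thickening 1 (S.W k), ENNReal.ofReal (S.G k w) := by
        rw [lintegral_add_left measurable_const]
        simp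
    _ ≤ ENNReal.ofReal (A * S.L k ^ m) + ENNReal.ofReal (A * S.L k ^ m) :=
        add_le_add (hF.W_fin k) (hF.G_int k)
    _ = ENNReal.ofReal (2 * A * S.L k ^ m) := by
        rw [← ENNReal.ofReal_add (by positivity) (by positivity)]
        congr 1
        ring

/-- (A) choice of a good point: Chebyshev -/
theorem choice {B A a : ℝ} (hR : D.Rules) (hH : D.Heat B) (hF : S.Facts A a) :
    ∃ l : ℝ, 0 < l ∧ ∀ (k : ℕ) (R ρ : ℝ), 0 < R → 0 < ρ → ∃ w, S.Good k R ρ l w := by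
  have hA := hF.A_pos
  have ha := hF.a_pos
  set β : ℝ := (volume (Metric.ball (0 : Fin m → ℂ) 1)).toReal with hβ
  have hβ0 : 0 ≤ β := ENNReal.toReal_nonneg
  have hβe : volume (Metric.ball (0 : Fin m → ℂ) 1) = ENNReal.ofReal β :=
    (ENNReal.ofReal_toReal measure_ball_lt_top.ne).symm
  set c : ℝ := A * ((m + 1) * A ^ 3 + 4 * (m + 1) * A ^ 2 + A) + β * (2 * A) with hc
  have hc0 : 0 < c := by positivity
  refine ⟨8 * c / a + 1, by positivity, fun k R ρ hR0 hρ => ?_⟩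
  set l : ℝ := 8 * c / a + 1 with hl
  have hl0 : 0 < l := by positivity
  have hL : 0 < S.L k := lt_of_lt_of_le one_pos (hF.L_one k)
  have hLm : 0 < S.L k ^ m := by positivity
  let f : Fin 8 → (Fin m → ℂ) → ℝ≥0∞ := fun j =>
    if h : (j : ℕ) < 7 then fun w => ENNReal.ofReal (S.FF k R ρ ⟨j, h⟩ (S.φ k w))
    else S.segl k
  have hfm : ∀ j, AEMeasurable (f j) (volume.restrict (S.W k)) := by
    intro j
    by_cases h : (j : ℕ) < 7
    · simp only [f, dif_pos h]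
      exact (((S.FF_cont hR hH hF k hR0 hρ _).1.measurable.comp
        (hF.φ_meas k)).ennreal_ofReal).aemeasurable
    · simp only [f, dif_neg h]
      exact (S.segl_meas hF k).aemeasurable
  have hfb : ∀ j, ∫⁻ w in S.W k, f j w ≤ ENNReal.ofReal (c * S.L k ^ m) := by
    intro j
    by_cases h : (j : ℕ) < 7
    · simp only [f, dif_pos h]
      refine (hF.pull k _ (S.FF_cont hR hH hF k hR0 hρ _)
        (S.FF_nonneg hR hH hF k hR0 hρ _)).trans (ENNReal.ofReal_le_ofReal ?_)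
      have h1 := mul_le_mul_of_nonneg_left (S.FF_int hR hH hF k hR0 hρ ⟨j, h⟩) hA.le
      have h2 : 0 ≤ β * (2 * A) * S.L k ^ m := by positivity
      rw [hc]
      nlinarith
    · simp only [f, dif_neg h]
      refine (S.int_segl hF k).trans ?_
      rw [hβe, ← ENNReal.ofReal_mul hβ0]
      apply ENNReal.ofReal_le_ofReal
      have h2 : 0 ≤ A * ((m + 1) * A ^ 3 + 4 * (m + 1) * A ^ 2 + A) * S.L k ^ m := by
        positivity
      rw [hc]
      nlinarith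
  have hlt : ((8 : ℕ) : ℝ≥0∞) * ENNReal.ofReal (c * S.L k ^ m) <
      ENNReal.ofReal l * volume (S.W k) := by
    have h1 : ((8 : ℕ) : ℝ≥0∞) * ENNReal.ofReal (c * S.L k ^ m) =
        ENNReal.ofReal (8 * (c * S.L k ^ m)) := by
      rw [ENNReal.ofReal_mul (by norm_num : (0 : ℝ) ≤ 8)]
      norm_num
    rw [h1]
    refine lt_of_lt_of_le ?_ (mul_le_mul_right (hF.W_vol k) _)
    rw [← ENNReal.ofReal_mul hl0.le]
    apply (ENNReal.ofReal_lt_ofReal_iff (by positivity)).2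
    have h2 : l * (a * S.L k ^ m) = 8 * c * S.L k ^ m + a * S.L k ^ m := by
      rw [hl]
      field_simp
    rw [h2]
    have h3 : 0 < a * S.L k ^ m := by positivity
    nlinarith
  obtain ⟨w, hw, hj⟩ := cheb volume (S.W k) 8 f hfm _ (ENNReal.ofReal l) hfb hlt
  have hF7 : ∀ j : Fin 7, S.FF k R ρ j (S.φ k w) < l := by
    intro j
    have h1 := hj ⟨j, by omega⟩
    simp only [f, dif_pos j.2] at h1
    exact (ENNReal.ofReal_lt_ofReal_iff hl0).1 h1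
  have h8 := hj ⟨7, by norm_num⟩
  have hR2 : (0 : ℝ) < R ^ 2 := by positivity
  refine ⟨w, hw, ?_, ?_, ?_, ?_, ?_, ?_, ?_, ?_⟩
  · exact (hF7 0).le
  · have h := (hF7 1).le
    change R ^ 2 * D.heat (S.M k) ((4 * ρ) ^ 2) (S.g2 k R) (S.φ k w) ≤ l at h
    rw [le_div_iff₀ hR2]
    linarith
  · have h := (hF7 2).le
    change S.L k * D.heat (S.M k) (2 * R ^ 2) (S.th k) (S.φ k w) ≤ l at h
    rw [le_div_iff₀ hL]
    linarith
  · have h := (hF7 3).le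
    change S.L k * D.heat (S.M k) ((4 * ρ) ^ 2) (S.th k) (S.φ k w) ≤ l at h
    rw [le_div_iff₀ hL]
    linarith
  · have h := (hF7 4).le
    change S.L k / R ^ 2 * S.g4 k R (S.φ k w) ≤ l at h
    rw [le_div_iff₀ hL]
    rw [div_mul_eq_mul_div, div_le_iff₀ hR2] at h
    linarith
  · have h := (hF7 5).le
    change S.L k / R ^ 2 * D.heat (S.M k) ((4 * ρ) ^ 2) (S.g4 k R) (S.φ k w) ≤ l at h
    rw [le_div_iff₀ hL]
    rw [div_mul_eq_mul_div, div_le_iff₀ hR2] at h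
    linarith
  · have h := (hF7 6).le
    change S.L k * D.heat (S.M k) ((4 * ρ) ^ 2) (S.g5 k R) (S.φ k w) ≤ l at h
    rw [le_div_iff₀ hL]
    linarith
  · simp only [f] at h8
    exact h8.le

end Degen

end Pool.Agent.SYN
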