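import Mathlib

/-!
Data and published facts about a class of Ricci-flat Kahler metrics on one space `X`. The space `X`
is a compact manifold, or the regular part of a compact variety with singularities of codimension at
least two whose completion for the metric is an `RCD(0, 2m)` space. It is not assumed to be compact.
-/

open MeasureTheory Set Filter
open scoped ENNReal Topology

namespace Pool.Agent.SYN

/-- A class of Kahler metrics (each with its complex structure, of complex dimension `m`) on one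
space `X`, as plain data: distance, volume, the functions which are smooth on `X`, bounded, with
bounded gradient and bounded Laplacian, and belong to the domain of the Laplacian (`sm`: if `X` is
a compact manifold these are the smooth functions), the products `⟨∇f,∇h⟩` and `⟨∇f,J∇h⟩`, the
Laplacian, `|∇²f|²`, the heat semigroup (integral against the heat kernel, zero for `s ≤ 0` or if
the integral does not exist), the predicate that a ball is nearly flat, and the energy densities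
of the holomorphic maps to the projective spaces `P^N`, all `N`. -/
structure Geo (m : ℕ) where
  X : Type
  [top : TopologicalSpace X]
  [mea : MeasurableSpace X]
  [bor : BorelSpace X]
  Met : Type
  dist : Met → X → X → ℝ
  vol : Met → Measure X
  sm : Met → Set (X → ℝ)
  gr : Met → (X → ℝ) → (X → ℝ) → X → ℝ
  grJ : Met → (X → ℝ) → (X → ℝ) → X → ℝ
  lap : Met → (X → ℝ) → X → ℝ
  hess : Met → (X → ℝ) → X → ℝ
  heat : Met → ℝ → (X → ℝ) → X → ℝ
  flat : Met → X → ℝ → Prop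
  ener : Met → Set (X → ℝ)

attribute [instance] Geo.top Geo.mea Geo.bor

namespace Geo

variable {m : ℕ} (D : Geo m)

/-- open ball of the metric `M` -/
def ball (M : D.Met) (x : D.X) (r : ℝ) : Set D.X := {z | D.dist M x z < r}

/-- continuous and integrable functions -/
def Tame (M : D.Met) (f : D.X → ℝ) : Prop := Continuous f ∧ Integrable f (D.vol M)

/-- the hermitian Gram determinant of the `(1,0)`-parts of `dh_1, ..., dh_m` (up to a factor) -/
noncomputable def gram (M : D.Met) (h : Fin m → D.X → ℝ) (x : D.X) : ℝ :=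
  ‖Matrix.det (fun i j : Fin m =>
    ((D.gr M (h i) (h j) x : ℂ) + (D.grJ M (h i) (h j) x : ℂ) * Complex.I))‖

/-- Elementary rules. -/
structure Rules : Prop where
  dist_self : ∀ M x, D.dist M x x = 0
  dist_comm : ∀ M x y, D.dist M x y = D.dist M y x
  dist_tri : ∀ M x y z, D.dist M x z ≤ D.dist M x y + D.dist M y z
  dist_cont : ∀ M x, Continuous (fun z => D.dist M x z)
  fin : ∀ M, IsFiniteMeasure (D.vol M)
  sm_cont : ∀ M, ∀ f ∈ D.sm M, Continuous f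
  sm_bdd : ∀ M, ∀ f ∈ D.sm M, ∃ C, ∀ x, |f x| ≤ C
  sm_sub : ∀ M, ∀ f ∈ D.sm M, ∀ h ∈ D.sm M, (fun x => f x - h x) ∈ D.sm M
  sm_arctan : ∀ M, ∀ f ∈ D.sm M, (fun x => Real.arctan (f x)) ∈ D.sm M
  lap_cont : ∀ M, ∀ f ∈ D.sm M, Continuous (D.lap M f)
  lap_bdd : ∀ M, ∀ f ∈ D.sm M, ∃ C, ∀ x, |D.lap M f x| ≤ C
  hess_tame : ∀ M, ∀ f ∈ D.sm M, D.Tame M (D.hess M f)
  gr_comm : ∀ M f h x, D.gr M f h x = D.gr M h f x
  gr_sub : ∀ M, ∀ f ∈ D.sm M, ∀ h ∈ D.sm M, ∀ k ∈ D.sm M, ∀ x,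
    D.gr M (fun z => f z - h z) k x = D.gr M f k x - D.gr M h k x
  gr_nonneg : ∀ M f x, 0 ≤ D.gr M f f x
  gr_bdd : ∀ M, ∀ f ∈ D.sm M, ∃ C, ∀ x, D.gr M f f x ≤ C
  hess_nonneg : ∀ M f x, 0 ≤ D.hess M f x
  gr_cs : ∀ M, ∀ f ∈ D.sm M, ∀ h ∈ D.sm M, ∀ x,
    (D.gr M f h x) ^ 2 ≤ D.gr M f f x * D.gr M h h x
  grJ_skew : ∀ M f h x, D.grJ M f h x = - D.grJ M h f x
  grJ_sub : ∀ M, ∀ f ∈ D.sm M, ∀ h ∈ D.sm M, ∀ k ∈ D.sm M, ∀ x,
    D.grJ M (fun z => f z - h z) k x = D.grJ M f k x - D.grJ M h k x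
  grJ_cs : ∀ M, ∀ f ∈ D.sm M, ∀ h ∈ D.sm M, ∀ x,
    (D.grJ M f h x) ^ 2 ≤ D.gr M f f x * D.gr M h h x
  gr_cont : ∀ M, ∀ f ∈ D.sm M, ∀ h ∈ D.sm M, Continuous (D.gr M f h)
  lap_sub : ∀ M, ∀ f ∈ D.sm M, ∀ h ∈ D.sm M, ∀ x,
    D.lap M (fun z => f z - h z) x = D.lap M f x - D.lap M h x
  /-- chain rule for `arctan` -/
  gr_arctan : ∀ M, ∀ f ∈ D.sm M, ∀ h ∈ D.sm M, ∀ x,
    D.gr M (fun z => Real.arctan (f z)) h x = (1 + f x ^ 2)⁻¹ * D.gr M f h x
  /-- integration by parts -/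
  ibp : ∀ M, ∀ f ∈ D.sm M, ∀ h ∈ D.sm M,
    ∫ x, D.gr M f h x ∂(D.vol M) = - ∫ x, f x * D.lap M h x ∂(D.vol M)
  /-- a gradient bound on a ball is a Lipschitz bound from the centre -/
  lip : ∀ M, ∀ f ∈ D.sm M, ∀ x r K, 0 ≤ K → (∀ z ∈ D.ball M x r, D.gr M f f z ≤ K ^ 2) →
    ∀ z ∈ D.ball M x r, |f z - f x| ≤ K * D.dist M x z

/-- The heat semigroup of a compact manifold with `Ric = 0` (or a compact `RCD(0, 2m)` space):
positivity, mass, gradient bound (Bakry-Emery), integrated Bochner formula with the spectral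
theorem, Harnack inequality and lower bound of Li-Yau, volume comparison of Bishop-Gromov. -/
structure Heat (B : ℝ) : Prop where
  pos : 0 < B
  cont : ∀ M s, 0 < s → ∀ f, D.Tame M f → D.Tame M (D.heat M s f)
  smooth : ∀ M s, 0 < s → ∀ f ∈ D.sm M, D.heat M s f ∈ D.sm M
  mono : ∀ M s, 0 < s → ∀ f h, D.Tame M f → D.Tame M h → (∀ x, f x ≤ h x) →
    ∀ x, D.heat M s f x ≤ D.heat M s h x
  neg : ∀ M s f x, D.heat M s (fun z => - f z) x = - D.heat M s f x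
  smul : ∀ M s (c : ℝ) f x, D.heat M s (fun z => c * f z) x = c * D.heat M s f x
  zero : ∀ M s x, D.heat M s (fun _ => 0) x = 0
  mass : ∀ M s, 0 < s → ∀ f, D.Tame M f →
    ∫ x, D.heat M s f x ∂(D.vol M) = ∫ x, f x ∂(D.vol M)
  lap : ∀ M s, 0 < s → ∀ f ∈ D.sm M, ∀ x, D.lap M (D.heat M s f) x = D.heat M s (D.lap M f) x
  near : ∀ M s, 0 < s → ∀ f ∈ D.sm M,
    ∫ x, |f x - D.heat M s f x| ∂(D.vol M) ≤ s * ∫ x, |D.lap M f x| ∂(D.vol M)
  grad : ∀ M s, 0 < s → ∀ f ∈ D.sm M, ∀ x,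
    D.gr M (D.heat M s f) (D.heat M s f) x ≤ D.heat M s (D.gr M f f) x
  bochner : ∀ M s, 0 < s → ∀ f ∈ D.sm M,
    ∫ x, D.hess M (D.heat M s f) x ∂(D.vol M) ≤ s⁻¹ * ∫ x, D.gr M f f x ∂(D.vol M)
  harnack : ∀ M s, 0 < s → ∀ f, D.Tame M f → (∀ x, 0 ≤ f x) → ∀ x z,
    D.dist M x z ^ 2 ≤ s → D.heat M s f z ≤ B * D.heat M (2 * s) f x
  lower : ∀ M r, 0 < r → ∀ f, D.Tame M f → (∀ x, 0 ≤ f x) → ∀ x,
    ∫ z in D.ball M x r, f z ∂(D.vol M) ≤
      B * (D.vol M).real (D.ball M x r) * D.heat M (r ^ 2) f x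
  bishop : ∀ M x r R, 0 < r → r ≤ R →
    (D.vol M).real (D.ball M x R) ≤ (R / r) ^ (2 * m) * (D.vol M).real (D.ball M x r)
  upper : ∀ M x r, 0 < r → (D.vol M).real (D.ball M x r) ≤ B * r ^ (2 * m)

/-- Cheeger-Colding, Cheeger-Colding-Tian, Anderson: `m` almost splitting functions whose
gradients, together with their rotations by `J`, span, make a non-collapsed ball nearly flat;
Schoen-Uhlenbeck: small energy regularity for holomorphic maps on nearly flat balls; interior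
gradient estimate on nearly flat balls. -/
structure Regularity : Prop where
  split : ∀ v C c : ℝ, 0 < v → 0 < C → 0 < c → ∃ r₀ δ : ℝ, 0 < r₀ ∧ r₀ ≤ 1 ∧ 0 < δ ∧
    ∀ (M : D.Met) (z : D.X) (h : Fin m → D.X → ℝ), (∀ i, h i ∈ D.sm M) →
      v ≤ (D.vol M).real (D.ball M z 1) →
      (∀ i, ∀ w ∈ D.ball M z 1, D.gr M (h i) (h i) w ≤ C) →
      (∀ i, ∫ w in D.ball M z 1, D.hess M (h i) w ∂(D.vol M) ≤ δ) →
      (D.vol M).real (D.ball M z 1) ≤
        2 * (D.vol M).real (D.ball M z 1 ∩ {w | c ≤ D.gram M h w}) →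
      D.flat M z r₀
  energy : ∀ r : ℝ, 0 < r → ∃ ε C : ℝ, 0 < ε ∧ 0 < C ∧ ∀ (M : D.Met) (z : D.X),
    ∀ e ∈ D.ener M, D.flat M z r → ∫ w in D.ball M z r, e w ∂(D.vol M) ≤ ε →
      e z ≤ C * ∫ w in D.ball M z r, e w ∂(D.vol M)
  interior : ∀ r : ℝ, 0 < r → ∃ C : ℝ, 0 < C ∧ ∀ (M : D.Met) (z : D.X), ∀ f ∈ D.sm M, ∀ κ : ℝ,
    D.flat M z r → (∀ w ∈ D.ball M z r, |D.lap M f w| ≤ κ) →
      D.gr M f f z ≤ C * (κ + ∫ w in D.ball M z r, |f w| ∂(D.vol M)) ^ 2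

end Geo

end Pool.Agent.SYN
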