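import Pool.Agent.SYN.Degen

open MeasureTheory Set Filter
open scoped ENNReal Topology

namespace Pool.Agent.SYN

namespace Degen

variable {m : ℕ} {D : Geo m} (S : Degen D)

/-- heat flow of `y_i` at scale `R` -/
noncomputable def hh (k : ℕ) (R : ℝ) (i : Fin (m + 1)) : D.X → ℝ :=
  D.heat (S.M k) (R ^ 2) (S.y k i)

noncomputable def ee (k : ℕ) (R : ℝ) (i : Fin (m + 1)) : D.X → ℝ :=
  fun x => S.y k i x - S.hh k R i x

noncomputable def g1 (k : ℕ) (x : D.X) : ℝ := ∑ i, D.gr (S.M k) (S.y k i) (S.y k i) x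

noncomputable def g2 (k : ℕ) (R : ℝ) (x : D.X) : ℝ := ∑ i, D.hess (S.M k) (S.hh k R i) x

noncomputable def g4 (k : ℕ) (R : ℝ) (x : D.X) : ℝ := ∑ i, |S.ee k R i x|

noncomputable def g5 (k : ℕ) (R : ℝ) (x : D.X) : ℝ :=
  ∑ i, D.gr (S.M k) (fun z => Real.arctan (S.ee k R i z)) (fun z => Real.arctan (S.ee k R i z)) x

/-- a point of the chart where all averages are controlled -/
structure Good (k : ℕ) (R ρ l : ℝ) (w : Fin m → ℂ) : Prop where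
  mem : w ∈ S.W k
  b1 : D.heat (S.M k) (2 * R ^ 2) (S.g1 k) (S.φ k w) ≤ l
  b2 : D.heat (S.M k) ((4 * ρ) ^ 2) (S.g2 k R) (S.φ k w) ≤ l / R ^ 2
  b3 : D.heat (S.M k) (2 * R ^ 2) (S.th k) (S.φ k w) ≤ l / S.L k
  b3' : D.heat (S.M k) ((4 * ρ) ^ 2) (S.th k) (S.φ k w) ≤ l / S.L k
  b4 : S.g4 k R (S.φ k w) ≤ l * R ^ 2 / S.L k
  b4' : D.heat (S.M k) ((4 * ρ) ^ 2) (S.g4 k R) (S.φ k w) ≤ l * R ^ 2 / S.L k
  b5 : D.heat (S.M k) ((4 * ρ) ^ 2) (S.g5 k R) (S.φ k w) ≤ l / S.L k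
  b6 : ∫⁻ v in Metric.ball (0 : Fin m → ℂ) 1, ∫⁻ s in Icc (0 : ℝ) 1,
    ENNReal.ofReal (Real.sqrt (S.G k (w + s • v))) ≤ ENNReal.ofReal l

end Degen

end Pool.Agent.SYN
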