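import Pool.Agent.SYN.Geo

/-!
Continuity of the hermitian Gram determinant with respect to the gradients.
-/

open MeasureTheory Set Filter
open scoped ENNReal Topology

namespace Pool.Agent.SYN.Degen

variable {m : ℕ} {D : Geo m}

theorem abs_le_of_sq_le {a b : ℝ} (h : a ^ 2 ≤ b) : |a| ≤ Real.sqrt b := by
  rw [← Real.sqrt_sq_eq_abs]
  exact Real.sqrt_le_sqrt h

theorem gram_gr_le (hR : D.Rules) {C e : ℝ} (he : 0 ≤ e) (M : D.Met) {f h : D.X → ℝ}
    (hf : f ∈ D.sm M) (hh : h ∈ D.sm M) (x : D.X) (h1 : D.gr M f f x ≤ e) (h2 : D.gr M h h x ≤ C) :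
    |D.gr M f h x| ≤ Real.sqrt (e * C) ∧ |D.grJ M f h x| ≤ Real.sqrt (e * C) := by
  have h3 : D.gr M f f x * D.gr M h h x ≤ e * C :=
    mul_le_mul h1 h2 (hR.gr_nonneg M h x) he
  exact ⟨abs_le_of_sq_le ((hR.gr_cs M f hf h hh x).trans h3),
    abs_le_of_sq_le ((hR.grJ_cs M f hf h hh x).trans h3)⟩

theorem norm_entry_le (a b : ℝ) : ‖((a : ℂ) + (b : ℂ) * Complex.I)‖ ≤ |a| + |b| := by
  calc ‖((a : ℂ) + (b : ℂ) * Complex.I)‖ ≤ ‖(a : ℂ)‖ + ‖(b : ℂ) * Complex.I‖ := norm_add_le _ _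
    _ = |a| + |b| := by
      rw [norm_mul, Complex.norm_I, mul_one, Complex.norm_real, Complex.norm_real,
        Real.norm_eq_abs, Real.norm_eq_abs]

/-- (C) continuity of the Gram determinant -/
theorem gram_cont (hR : D.Rules) (C c : ℝ) (hC : 0 < C) (hc : 0 < c) : ∃ η : ℝ, 0 < η ∧
    ∀ (M : D.Met) (f h : Fin m → D.X → ℝ) (x : D.X), (∀ i, f i ∈ D.sm M) → (∀ i, h i ∈ D.sm M) →
      (∀ i, D.gr M (f i) (f i) x ≤ C) → (∀ i, D.gr M (h i) (h i) x ≤ C) →
      (∀ i, D.gr M (fun z => f i z - h i z) (fun z => f i z - h i z) x ≤ η) →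
      c ≤ D.gram M f x → c / 2 ≤ D.gram M h x := by
  classical
  let F : (Fin m → Fin m → ℂ) → ℝ := fun A => ‖Matrix.det (Matrix.of A)‖
  have hF : Continuous F := by
    refine continuous_norm.comp ?_
    refine Continuous.matrix_det ?_
    exact continuous_id
  have hK : IsCompact (Metric.closedBall (0 : Fin m → Fin m → ℂ) (2 * C)) :=
    isCompact_closedBall _ _
  have hu := hK.uniformContinuousOn_of_continuous hF.continuousOn
  rw [Metric.uniformContinuousOn_iff] at hu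
  obtain ⟨δ, hδ, hu⟩ := hu (c / 2) (by positivity)
  refine ⟨δ ^ 2 / (64 * C), by positivity, ?_⟩
  intro M f h x hf hh hfC hhC hfh hcf
  set η : ℝ := δ ^ 2 / (64 * C) with hη
  have hη0 : 0 ≤ η := by positivity
  have hsq : Real.sqrt (η * C) = δ / 8 := by
    have : η * C = (δ / 8) ^ 2 := by
      rw [hη]
      field_simp
      ring
    rw [this]
    exact Real.sqrt_sq (by positivity)
  have hsC : Real.sqrt (C * C) = C := Real.sqrt_mul_self hC.le
  -- the two matrices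
  let a : (Fin m → D.X → ℝ) → Fin m → Fin m → ℂ := fun g i j =>
    ((D.gr M (g i) (g j) x : ℂ) + (D.grJ M (g i) (g j) x : ℂ) * Complex.I)
  have hmem : ∀ g : Fin m → D.X → ℝ, (∀ i, g i ∈ D.sm M) → (∀ i, D.gr M (g i) (g i) x ≤ C) →
      a g ∈ Metric.closedBall (0 : Fin m → Fin m → ℂ) (2 * C) := by
    intro g hg hgC
    rw [mem_closedBall_zero_iff, pi_norm_le_iff_of_nonneg (by positivity)]
    intro i
    rw [pi_norm_le_iff_of_nonneg (by positivity)]
    intro j
    obtain ⟨h1, h2⟩ := gram_gr_le hR hC.le M (hg i) (hg j) x (hgC i) (hgC j)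
    rw [hsC] at h1 h2
    have := norm_entry_le (D.gr M (g i) (g j) x) (D.grJ M (g i) (g j) x)
    show ‖((D.gr M (g i) (g j) x : ℂ) + (D.grJ M (g i) (g j) x : ℂ) * Complex.I)‖ ≤ 2 * C
    linarith
  have hdist : dist (a f) (a h) < δ := by
    rw [dist_pi_lt_iff hδ]
    intro i
    rw [dist_pi_lt_iff hδ]
    intro j
    have hsi : (fun z => f i z - h i z) ∈ D.sm M := hR.sm_sub _ _ (hf i) _ (hh i)
    have hsj : (fun z => f j z - h j z) ∈ D.sm M := hR.sm_sub _ _ (hf j) _ (hh j)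
    obtain ⟨p1, p2⟩ := gram_gr_le hR hη0 M hsi (hf j) x (hfh i) (hfC j)
    obtain ⟨q1, q2⟩ := gram_gr_le hR hη0 M hsj (hh i) x (hfh j) (hhC i)
    rw [hsq] at p1 p2 q1 q2
    have e1 : D.gr M (f i) (f j) x - D.gr M (h i) (h j) x =
        D.gr M (fun z => f i z - h i z) (f j) x + D.gr M (fun z => f j z - h j z) (h i) x := by
      rw [hR.gr_sub M _ (hf i) _ (hh i) _ (hf j) x, hR.gr_sub M _ (hf j) _ (hh j) _ (hh i) x,
        hR.gr_comm M (f j) (h i) x, hR.gr_comm M (h j) (h i) x]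
      ring
    have e2 : D.grJ M (f i) (f j) x - D.grJ M (h i) (h j) x =
        D.grJ M (fun z => f i z - h i z) (f j) x - D.grJ M (fun z => f j z - h j z) (h i) x := by
      rw [hR.grJ_sub M _ (hf i) _ (hh i) _ (hf j) x, hR.grJ_sub M _ (hf j) _ (hh j) _ (hh i) x,
        hR.grJ_skew M (f j) (h i) x, hR.grJ_skew M (h j) (h i) x]
      ring
    have h3 : |D.gr M (f i) (f j) x - D.gr M (h i) (h j) x| ≤ δ / 4 := by
      rw [e1]
      refine (abs_add_le _ _).trans ?_
      linarith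
    have h4 : |D.grJ M (f i) (f j) x - D.grJ M (h i) (h j) x| ≤ δ / 4 := by
      rw [e2]
      refine (abs_sub _ _).trans ?_
      linarith
    have e3 : a f i j - a h i j =
        ((D.gr M (f i) (f j) x - D.gr M (h i) (h j) x : ℝ) : ℂ) +
          ((D.grJ M (f i) (f j) x - D.grJ M (h i) (h j) x : ℝ) : ℂ) * Complex.I := by
      simp only [a]
      push_cast
      ring
    rw [dist_eq_norm, e3]
    refine (norm_entry_le _ _).trans_lt ?_
    linarith
  have hfin := hu (a f) (hmem f hf hfC) (a h) (hmem h hh hhC) hdist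
  have hFf : F (a f) = D.gram M f x := rfl
  have hFh : F (a h) = D.gram M h x := rfl
  rw [hFf, hFh, Real.dist_eq] at hfin
  have := (abs_lt.1 hfin).2
  linarith

end Pool.Agent.SYN.Degen
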