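import Pool.Agent.SYN.Near1
import Pool.Agent.SYN.Gram

open MeasureTheory Set Filter
open scoped ENNReal Topology

namespace Pool.Agent.SYN

theorem thr (l R2 s4 a N ε₁ Ce Ci X η τ v₁ : ℝ) (hl : 0 < l) (hR2 : 0 < R2) (hs : 0 ≤ s4)
    (ha : 0 < a) (hN : 0 < N) (hε : 0 < ε₁) (hCe : 0 < Ce) (hCi : 0 < Ci) (hX : 0 < X)
    (hη : 0 < η) (hτ : 0 < τ) (hv : 0 < v₁) :
    ∃ T : ℝ, ∀ L : ℝ, T ≤ L → 1 ≤ L →
      l * R2 / L ≤ 1 ∧ 2 + s4 ≤ a * L ∧ N * (l / L) ≤ ε₁ ∧ Ce * (N * (l / L)) ≤ 1 ∧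
      Ci * (X / L) ^ 2 ≤ 1 ∧
      N * (l * R2 / L) + N * (l / L) / η + N * (l / L) / τ ≤ v₁ / 2 := by
  have key : ∀ c : ℝ, 0 ≤ c → ∀ L : ℝ, c ≤ L → 1 ≤ L → c / L ≤ 1 := by
    intro c _ L h1 h2
    rw [div_le_one (by linarith)]; exact h1
  refine ⟨l * R2 + (2 + s4) / a + N * l / ε₁ + Ce * (N * l) + Ci * X ^ 2 +
    (N * (l * R2) + N * l / η + N * l / τ) * 2 / v₁, fun L hL hL1 => ?_⟩
  have hL0 : 0 < L := by linarith
  have p1 : 0 ≤ l * R2 := by positivity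
  have p2 : 0 ≤ (2 + s4) / a := by positivity
  have p3 : 0 ≤ N * l / ε₁ := by positivity
  have p4 : 0 ≤ Ce * (N * l) := by positivity
  have p5 : 0 ≤ Ci * X ^ 2 := by positivity
  have p6 : 0 ≤ (N * (l * R2) + N * l / η + N * l / τ) * 2 / v₁ := by positivity
  refine ⟨key _ p1 _ (by linarith) hL1, ?_, ?_, ?_, ?_, ?_⟩
  · have h : (2 + s4) / a ≤ L := by linarith
    rw [div_le_iff₀ ha] at h; linarith
  · have h : N * l / ε₁ ≤ L := by linarith
    rw [div_le_iff₀ hε] at h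
    rw [← mul_div_assoc, div_le_iff₀ hL0]; linarith
  · have e : Ce * (N * (l / L)) = Ce * (N * l) / L := by ring
    rw [e]; exact key _ p4 _ (by linarith) hL1
  · have h5 : Ci * X ^ 2 ≤ L := by linarith
    have e : Ci * (X / L) ^ 2 = Ci * X ^ 2 / L ^ 2 := by rw [div_pow]; ring
    rw [e, div_le_one (by positivity)]
    nlinarith
  · have h6 : (N * (l * R2) + N * l / η + N * l / τ) * 2 / v₁ ≤ L := by linarith
    rw [div_le_iff₀ hv] at h6
    have e : N * (l * R2 / L) + N * (l / L) / η + N * (l / L) / τ =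
        (N * (l * R2) + N * l / η + N * l / τ) / L := by
      ring
    rw [e, div_le_iff₀ hL0]
    linarith

theorem Geo.Rules.dist_nonneg {m : ℕ} {D : Geo m} (hR : D.Rules) (M : D.Met) (x z : D.X) :
    0 ≤ D.dist M x z := by
  have h1 := hR.dist_tri M x z x
  rw [hR.dist_self, hR.dist_comm M z x] at h1
  linarith

namespace Degen

variable {m : ℕ} {D : Geo m} (S : Degen D)

/-- average over the big ball -/
theorem int_big {B A a : ℝ} (_hRu : D.Rules) (hH : D.Heat B) (_hF : S.Facts A a) {k : ℕ}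
    {ρ q : ℝ} (hρ : 0 < ρ) {x : D.X} {f : D.X → ℝ} (hf : D.Tame (S.M k) f) (h0 : ∀ u, 0 ≤ f u)
    (hq : 0 ≤ q) (h : D.heat (S.M k) ((4 * ρ) ^ 2) f x ≤ q) :
    ∫ z in D.ball (S.M k) x (4 * ρ), f z ∂(D.vol (S.M k)) ≤
      B * (B * (4 * ρ) ^ (2 * m)) * q := by
  have hB := hH.pos
  have e1 := hH.lower (S.M k) (4 * ρ) (by positivity) f hf h0 x
  have e2 := hH.upper (S.M k) x (4 * ρ) (by positivity)
  have e3 : B * (D.vol (S.M k)).real (D.ball (S.M k) x (4 * ρ)) *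
      D.heat (S.M k) ((4 * ρ) ^ 2) f x ≤
      B * (D.vol (S.M k)).real (D.ball (S.M k) x (4 * ρ)) * q := by
    gcongr
  have e4 : B * (D.vol (S.M k)).real (D.ball (S.M k) x (4 * ρ)) * q ≤
      B * (B * (4 * ρ) ^ (2 * m)) * q := by gcongr
  linarith

/-- pointwise bounds near a good point; `C` does not depend on `ρ` -/
theorem near_good {B A a : ℝ} (hR : D.Rules) (hH : D.Heat B) (hG : D.Regularity)
    (hF : S.Facts A a) (l v : ℝ) (hl : 0 < l) (hv : 0 < v) : ∃ C : ℝ, 0 < C ∧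
    ∀ ρ : ℝ, 1 ≤ ρ → ∃ R : ℝ, 0 < R ∧ ∀ᶠ k in atTop, ∀ w, S.Good k R ρ l w →
      v ≤ (D.vol (S.M k)).real (D.ball (S.M k) (S.φ k w) 1) →
      ∀ x ∈ D.ball (S.M k) (S.φ k w) ρ,
        (∀ i, D.gr (S.M k) (S.y k i) (S.y k i) x ≤ C) ∧ S.th k x ≤ 1 := by
  have hB := hH.pos
  have hA := hF.A_pos
  have ha := hF.a_pos
  have hBl : 0 < B * l := by positivity
  -- the constant
  obtain ⟨C, hC, hCdef⟩ : ∃ C : ℝ, 0 < C ∧ C = 2 * (B * l) + 2 := ⟨_, by positivity, rfl⟩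
  refine ⟨C, hC, fun ρ hρ => ?_⟩
  have hρ0 : 0 < ρ := by linarith
  obtain ⟨τ, hτ, hgl⟩ := hF.gram_low C
  obtain ⟨η₀, hη₀, hgc⟩ := gram_cont hR C a hC ha
  obtain ⟨η, hη, hη1, hη2⟩ : ∃ η : ℝ, 0 < η ∧ 4 * η ≤ 1 ∧ 4 * η ≤ η₀ := by
    refine ⟨min (1 / 4) (η₀ / 4), lt_min (by norm_num) (by linarith), ?_, ?_⟩
    · have := min_le_left (1 / 4 : ℝ) (η₀ / 4)
      linarith
    · have := min_le_right (1 / 4 : ℝ) (η₀ / 4)
      linarith
  -- volume lower bound on unit balls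
  have hρp : 0 < (2 * ρ + 1) ^ (2 * m) := pow_pos (by linarith) _
  obtain ⟨v₁, hv₁, hv₁def⟩ : ∃ v₁ : ℝ, 0 < v₁ ∧ v₁ = v / (2 * ρ + 1) ^ (2 * m) :=
    ⟨_, div_pos hv hρp, rfl⟩
  obtain ⟨r₀, δ, hr₀, hr₀1, hδ, hsplit⟩ := hG.split v₁ (B * l) (a / 2) hv₁ hBl (half_pos ha)
  obtain ⟨ε₁, Ce, hε₁, hCe, hener⟩ := hG.energy r₀ hr₀
  obtain ⟨Ci, hCi, hint⟩ := hG.interior r₀ hr₀
  obtain ⟨N, hN, hNdef⟩ : ∃ N : ℝ, 0 < N ∧ N = B * (B * (4 * ρ) ^ (2 * m)) :=
    ⟨_, mul_pos hB (mul_pos hB (pow_pos (by linarith) _)), rfl⟩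
  obtain ⟨R, hRpos, hR1, hRρ, hRδ⟩ : ∃ R : ℝ, 0 < R ∧ 1 ≤ R ∧ 4 * ρ ≤ R ∧
      N * (l / R ^ 2) ≤ δ := by
    have h0 : 0 ≤ N * l / δ := by positivity
    refine ⟨4 * ρ + N * l / δ + 1, by linarith, by linarith, by linarith, ?_⟩
    have h1 : N * l / δ ≤ 4 * ρ + N * l / δ + 1 := by linarith
    have h1' : 1 ≤ 4 * ρ + N * l / δ + 1 := by linarith
    generalize 4 * ρ + N * l / δ + 1 = R at h1 h1'
    have h2 : R ≤ R ^ 2 := by nlinarith
    rw [div_le_iff₀ hδ] at h1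
    rw [← mul_div_assoc, div_le_iff₀ (by positivity)]
    nlinarith
  refine ⟨R, hRpos, ?_⟩
  -- the threshold for `L`
  obtain ⟨X, hX, hXdef⟩ : ∃ X : ℝ, 0 < X ∧
      X = A * (Ce * (N * l)) + A * (B * l) + N * (l * R ^ 2) := ⟨_, by positivity, rfl⟩
  obtain ⟨T, hT⟩ := thr l (R ^ 2) (Real.sqrt (B * l) * (4 * ρ)) a N ε₁ Ce Ci X η τ v₁ hl
    (by positivity) (by positivity) ha hN hε₁ hCe hCi hX hη hτ hv₁
  filter_upwards [hF.L_top.eventually_ge_atTop T] with k hk w hw hvol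
  have hL1 : 1 ≤ S.L k := hF.L_one k
  have hL0 : 0 < S.L k := by linarith
  obtain ⟨c1, c2, c3, c4, c5, c6⟩ := hT _ hk hL1
  clear hk hT
  obtain ⟨x, hx⟩ : ∃ x, x = S.φ k w := ⟨_, rfl⟩
  rw [← hx] at hvol ⊢
  have b1 := hw.b1
  have b3 := hw.b3
  have b4 := hw.b4
  rw [← hx] at b1 b3 b4
  have hdist := hR.dist_nonneg (S.M k)
  -- integrals over the big ball
  have hball4 := Geo.meas_ball hR (S.M k) x (4 * ρ)
  have i2 := S.int_big hR hH hF hρ0 (S.g2_cont hR hH hF k hRpos) (S.g2_nonneg hR k R)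
    (by positivity : (0 : ℝ) ≤ l / R ^ 2) hw.b2
  have i3 := S.int_big hR hH hF hρ0 (hF.th_tame k) (hF.th_nonneg k)
    (by positivity : (0 : ℝ) ≤ l / S.L k) hw.b3'
  have i4 := S.int_big hR hH hF hρ0 (S.g4_cont hR hH hF k hRpos) (S.g4_nonneg k R)
    (by positivity : (0 : ℝ) ≤ l * R ^ 2 / S.L k) hw.b4'
  have i5 := S.int_big hR hH hF hρ0 (S.g5_cont hR hH hF k hRpos) (S.g5_nonneg hR k R)
    (by positivity : (0 : ℝ) ≤ l / S.L k) hw.b5
  simp only [← hx, ← hNdef] at i2 i3 i4 i5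
  have hxg4 : S.g4 k R x ≤ 1 := by
    exact b4.trans c1
  have hyW := hF.y_W k w hw.mem
  rw [← hx] at hyW
  -- the bad set is small
  have hbad : (D.vol (S.M k)).real (D.ball (S.M k) x (4 * ρ) ∩ {u | 1 ≤ S.g4 k R u}) +
      (D.vol (S.M k)).real (D.ball (S.M k) x (4 * ρ) ∩ {u | η ≤ S.g5 k R u}) +
      (D.vol (S.M k)).real (D.ball (S.M k) x (4 * ρ) ∩ {u | τ ≤ S.th k u}) ≤ v₁ / 2 := by
    have m4 := Geo.markov (S.M k) (S.g4_cont hR hH hF k hRpos) (S.g4_nonneg k R) hball4 one_pos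
    have m5 := Geo.markov (S.M k) (S.g5_cont hR hH hF k hRpos) (S.g5_nonneg hR k R) hball4 hη
    have m3 := Geo.markov (S.M k) (hF.th_tame k) (hF.th_nonneg k) hball4 hτ
    rw [div_one] at m4
    have m5' : (∫ u in D.ball (S.M k) x (4 * ρ), S.g5 k R u ∂(D.vol (S.M k))) / η ≤
        N * (l / S.L k) / η := by gcongr
    have m3' : (∫ u in D.ball (S.M k) x (4 * ρ), S.th k u ∂(D.vol (S.M k))) / τ ≤
        N * (l / S.L k) / τ := by gcongr
    linarith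
  -- gradient bounds for `h`
  have hgh : ∀ u ∈ D.ball (S.M k) x (4 * ρ), ∀ i, D.gr (S.M k) (S.hh k R i) (S.hh k R i) u ≤ B * l := by
    intro u hu i
    refine S.gr_hh_le hR hH hF hRpos b1 ?_ i
    rw [abs_of_nonneg (hdist x u)]
    exact (le_of_lt hu).trans hRρ
  -- Gram determinant off the bad set
  have hgram : ∀ u ∈ D.ball (S.M k) x (4 * ρ), S.g4 k R u < 1 → S.g5 k R u < η → S.th k u < τ →
      a / 2 ≤ D.gram (S.M k) (fun i : Fin m => S.hh k R i.succ) u := by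
    intro u hu h4 h5 h3
    have hge : ∀ i, D.gr (S.M k) (S.ee k R i) (S.ee k R i) u ≤ 4 * η := by
      intro i
      have := S.gr_ee_le hR hH hF k hRpos i u h4.le
      linarith
    have hgy : ∀ i, D.gr (S.M k) (S.y k i) (S.y k i) u ≤ C := by
      intro i
      have e1 := Geo.gr_add_le hR (S.M k) (hF.y_sm k i) (S.hh_sm hH hF k hRpos i) u
      have e2 := hge i
      have e3 := hgh u hu i
      change D.gr (S.M k) (S.y k i) (S.y k i) u ≤ 2 * D.gr (S.M k) (S.hh k R i) (S.hh k R i) u +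
        2 * D.gr (S.M k) (S.ee k R i) (S.ee k R i) u at e1
      rw [hCdef]; linarith
    have hyu : ∀ i, 2 * a * S.L k ≤ S.y k i u := fun i =>
      S.y_ge hR hH hF hRpos hRρ hl.le b1 (hdist x) hxg4 hu h4.le (hyW i) c2
    have hg := hgl k u hyu hgy h3.le
    refine hgc (S.M k) (fun i : Fin m => S.y k i.succ) (fun i : Fin m => S.hh k R i.succ) u
      (fun i => hF.y_sm k _) (fun i => S.hh_sm hH hF k hRpos _) (fun i => hgy _) ?_ ?_ hg
    · intro i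
      have := hgh u hu i.succ
      rw [hCdef]; linarith
    · intro i
      exact (hge i.succ).trans hη2
  -- flat balls
  have hflat : ∀ z ∈ D.ball (S.M k) x (2 * ρ), D.flat (S.M k) z r₀ := by
    intro z hz
    have hsub1 : D.ball (S.M k) z 1 ⊆ D.ball (S.M k) x (4 * ρ) := Geo.ball_subset hR hz (by linarith)
    have hvz : v₁ ≤ (D.vol (S.M k)).real (D.ball (S.M k) z 1) := by
      have hsub : D.ball (S.M k) x 1 ⊆ D.ball (S.M k) z (2 * ρ + 1) := by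
        intro u hu
        have h1 := hR.dist_tri (S.M k) z x u
        have h2 : D.dist (S.M k) x z < 2 * ρ := hz
        have h3 : D.dist (S.M k) x u < 1 := hu
        rw [hR.dist_comm (S.M k) z x] at h1
        show D.dist (S.M k) z u < 2 * ρ + 1
        linarith
      have b1 := hH.bishop (S.M k) z 1 (2 * ρ + 1) one_pos (by linarith)
      have b2 := Geo.real_mono hR (S.M k) hsub
      rw [div_one] at b1
      rw [hv₁def, div_le_iff₀ (by positivity)]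
      linarith
    refine hsplit (S.M k) z (fun i => S.hh k R i.succ) (fun i => S.hh_sm hH hF k hRpos _) hvz ?_ ?_ ?_
    · intro i u hu
      exact hgh u (hsub1 hu) _
    · intro i
      have e1 : ∫ u in D.ball (S.M k) z 1, D.hess (S.M k) (S.hh k R i.succ) u ∂(D.vol (S.M k)) ≤
          ∫ u in D.ball (S.M k) z 1, S.g2 k R u ∂(D.vol (S.M k)) :=
        setIntegral_mono
          (hR.hess_tame (S.M k) _ (S.hh_sm hH hF k hRpos _)).2.integrableOn
          (S.g2_cont hR hH hF k hRpos).2.integrableOn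
          (fun u => S.le_g2 hR k R i.succ u)
      have e2 := Geo.setInt_mono (S.M k) (S.g2_cont hR hH hF k hRpos) (S.g2_nonneg hR k R) hsub1
      linarith
    · have hsub2 : D.ball (S.M k) z 1 ⊆
          (D.ball (S.M k) z 1 ∩ {u | a / 2 ≤ D.gram (S.M k) (fun i : Fin m => S.hh k R i.succ) u}) ∪
          ((D.ball (S.M k) x (4 * ρ) ∩ {u | 1 ≤ S.g4 k R u}) ∪
          ((D.ball (S.M k) x (4 * ρ) ∩ {u | η ≤ S.g5 k R u}) ∪
          (D.ball (S.M k) x (4 * ρ) ∩ {u | τ ≤ S.th k u}))) := by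
        intro u hu
        have huQ := hsub1 hu
        by_cases h4 : 1 ≤ S.g4 k R u
        · exact Or.inr (Or.inl ⟨huQ, h4⟩)
        by_cases h5 : η ≤ S.g5 k R u
        · exact Or.inr (Or.inr (Or.inl ⟨huQ, h5⟩))
        by_cases h3 : τ ≤ S.th k u
        · exact Or.inr (Or.inr (Or.inr ⟨huQ, h3⟩))
        exact Or.inl ⟨hu, hgram u huQ (not_le.1 h4) (not_le.1 h5) (not_le.1 h3)⟩
      have e0 := Geo.real_mono hR (S.M k) hsub2
      have := hR.fin (S.M k)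
      have e1 := measureReal_union_le (μ := D.vol (S.M k))
        (D.ball (S.M k) z 1 ∩ {u | a / 2 ≤ D.gram (S.M k) (fun i : Fin m => S.hh k R i.succ) u})
        ((D.ball (S.M k) x (4 * ρ) ∩ {u | 1 ≤ S.g4 k R u}) ∪
          ((D.ball (S.M k) x (4 * ρ) ∩ {u | η ≤ S.g5 k R u}) ∪
          (D.ball (S.M k) x (4 * ρ) ∩ {u | τ ≤ S.th k u})))
      have e2 := measureReal_union_le (μ := D.vol (S.M k))
        (D.ball (S.M k) x (4 * ρ) ∩ {u | 1 ≤ S.g4 k R u})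
        ((D.ball (S.M k) x (4 * ρ) ∩ {u | η ≤ S.g5 k R u}) ∪
          (D.ball (S.M k) x (4 * ρ) ∩ {u | τ ≤ S.th k u}))
      have e3 := measureReal_union_le (μ := D.vol (S.M k))
        (D.ball (S.M k) x (4 * ρ) ∩ {u | η ≤ S.g5 k R u})
        (D.ball (S.M k) x (4 * ρ) ∩ {u | τ ≤ S.th k u})
      linarith
  -- small energy: pointwise bound for `th`
  have hth : ∀ z ∈ D.ball (S.M k) x (2 * ρ), S.th k z ≤ Ce * (N * (l / S.L k)) := by
    intro z hz
    have hsub1 : D.ball (S.M k) z r₀ ⊆ D.ball (S.M k) x (4 * ρ) := Geo.ball_subset hR hz (by linarith)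
    have e1 := Geo.setInt_mono (S.M k) (hF.th_tame k) (hF.th_nonneg k) hsub1
    have e2 : ∫ u in D.ball (S.M k) z r₀, S.th k u ∂(D.vol (S.M k)) ≤ N * (l / S.L k) := e1.trans i3
    refine (hener (S.M k) z _ (hF.th_ener k) (hflat z hz) (e2.trans c3)).trans ?_
    gcongr
  -- conclusion
  intro z hz
  have hz2 : z ∈ D.ball (S.M k) x (2 * ρ) := Geo.ball_mono (by linarith) hz
  refine ⟨fun i => ?_, (hth z hz2).trans c4⟩
  have hsub1 : D.ball (S.M k) z r₀ ⊆ D.ball (S.M k) x (2 * ρ) := Geo.ball_subset hR hz (by linarith)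
  have hsub4 : D.ball (S.M k) z r₀ ⊆ D.ball (S.M k) x (4 * ρ) := hsub1.trans (Geo.ball_mono (by linarith))
  have hlap : ∀ u ∈ D.ball (S.M k) z r₀, |D.lap (S.M k) (S.ee k R i) u| ≤
      A * (Ce * (N * (l / S.L k))) + A * (B * (l / S.L k)) := by
    intro u hu
    have e1 := hR.lap_sub (S.M k) _ (hF.y_sm k i) _ (S.hh_sm hH hF k hRpos i) u
    have e2 : D.lap (S.M k) (S.ee k R i) u = D.lap (S.M k) (S.y k i) u - D.lap (S.M k) (S.hh k R i) u := e1
    have e3 := hF.lap_le k i u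
    have e4 := hth u (hsub1 hu)
    have e5 := S.lap_hh_le hR hH hF hRpos b3 (z := u) (by
      rw [abs_of_nonneg (hdist x u)]
      exact (le_of_lt (hsub4 hu)).trans hRρ) i
    rw [e2]
    refine (abs_sub _ _).trans ?_
    have e6 : A * S.th k u ≤ A * (Ce * (N * (l / S.L k))) := by gcongr
    linarith
  have hI := hint (S.M k) z _ (S.ee_sm hR hH hF k hRpos i) _ (hflat z hz2) hlap
  have hIe : ∫ u in D.ball (S.M k) z r₀, |S.ee k R i u| ∂(D.vol (S.M k)) ≤ N * (l * R ^ 2 / S.L k) := by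
    have e1 : ∫ u in D.ball (S.M k) z r₀, |S.ee k R i u| ∂(D.vol (S.M k)) ≤
        ∫ u in D.ball (S.M k) z r₀, S.g4 k R u ∂(D.vol (S.M k)) :=
      setIntegral_mono
        (hR.tame_sm (S.ee_sm hR hH hF k hRpos i)).abs.2.integrableOn
        (S.g4_cont hR hH hF k hRpos).2.integrableOn
        (fun u => S.le_g4 k R i u)
    have e2 := Geo.setInt_mono (S.M k) (S.g4_cont hR hH hF k hRpos) (S.g4_nonneg k R) hsub4
    linarith
  have hIe0 : 0 ≤ ∫ u in D.ball (S.M k) z r₀, |S.ee k R i u| ∂(D.vol (S.M k)) :=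
    integral_nonneg fun u => abs_nonneg _
  have hXe : A * (Ce * (N * (l / S.L k))) + A * (B * (l / S.L k)) +
      ∫ u in D.ball (S.M k) z r₀, |S.ee k R i u| ∂(D.vol (S.M k)) ≤ X / S.L k := by
    have e : X / S.L k = A * (Ce * (N * (l / S.L k))) + A * (B * (l / S.L k)) +
        N * (l * R ^ 2 / S.L k) := by rw [hXdef]; ring
    rw [e]; linarith
  have hge : D.gr (S.M k) (S.ee k R i) (S.ee k R i) z ≤ 1 := by
    refine hI.trans ((?_ : _ ≤ Ci * (X / S.L k) ^ 2).trans c5)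
    have h0 : 0 ≤ A * (Ce * (N * (l / S.L k))) + A * (B * (l / S.L k)) +
        ∫ u in D.ball (S.M k) z r₀, |S.ee k R i u| ∂(D.vol (S.M k)) := by positivity
    gcongr
  have e1 := Geo.gr_add_le hR (S.M k) (hF.y_sm k i) (S.hh_sm hH hF k hRpos i) z
  have e3 := hgh z (Geo.ball_mono (by linarith) hz) i
  change D.gr (S.M k) (S.y k i) (S.y k i) z ≤ 2 * D.gr (S.M k) (S.hh k R i) (S.hh k R i) z +
    2 * D.gr (S.M k) (S.ee k R i) (S.ee k R i) z at e1
  rw [hCdef]; linarith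

end Degen

end Pool.Agent.SYN
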