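import Pool.Agent.SYN.Basic

open MeasureTheory Set Filter
open scoped ENNReal Topology

namespace Pool.Agent.SYN

namespace Degen

variable {m : ℕ} {D : Geo m} (S : Degen D)

/-- gradient of `h_i` near a good point -/
theorem gr_hh_le {B A a : ℝ} (hRu : D.Rules) (hH : D.Heat B) (hF : S.Facts A a) {k : ℕ} {R l : ℝ}
    (hR : 0 < R) {x z : D.X} (h1 : D.heat (S.M k) (2 * R ^ 2) (S.g1 k) x ≤ l)
    (hz : |D.dist (S.M k) x z| ≤ R) (i : Fin (m + 1)) :
    D.gr (S.M k) (S.hh k R i) (S.hh k R i) z ≤ B * l := by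
  have hR2 : 0 < R ^ 2 := by positivity
  have e1 := hH.grad (S.M k) (R ^ 2) hR2 _ (hF.y_sm k i) z
  have e2 := hH.mono (S.M k) (R ^ 2) hR2 _ _ (hRu.tame_gr (hF.y_sm k i) (hF.y_sm k i))
    (S.g1_cont hRu hF k) (S.le_g1 hRu k i) z
  have e3 := hH.harnack (S.M k) (R ^ 2) hR2 _ (S.g1_cont hRu hF k) (S.g1_nonneg hRu k) x z
    (by rw [← sq_abs]; gcongr)
  have hB := hH.pos
  calc D.gr (S.M k) (S.hh k R i) (S.hh k R i) z ≤ _ := e1
    _ ≤ _ := e2
    _ ≤ _ := e3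
    _ ≤ B * l := by gcongr

/-- Laplacian of `h_i` near a good point -/
theorem lap_hh_le {B A a : ℝ} (hRu : D.Rules) (hH : D.Heat B) (hF : S.Facts A a) {k : ℕ}
    {R q : ℝ} (hR : 0 < R) {x z : D.X} (h1 : D.heat (S.M k) (2 * R ^ 2) (S.th k) x ≤ q)
    (hz : |D.dist (S.M k) x z| ≤ R) (i : Fin (m + 1)) :
    |D.lap (S.M k) (S.hh k R i) z| ≤ A * (B * q) := by
  have hR2 : 0 < R ^ 2 := by positivity
  have hB := hH.pos
  have hA := hF.A_pos
  have e3 := hH.harnack (S.M k) (R ^ 2) hR2 _ (hF.th_tame k) (hF.th_nonneg k) x z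
    (by rw [← sq_abs]; gcongr)
  have e4 : D.heat (S.M k) (R ^ 2) (S.th k) z ≤ B * q := e3.trans (by gcongr)
  have hlc := hRu.tame_lap (hF.y_sm k i)
  have hAc : D.Tame (S.M k) (fun u => A * S.th k u) := (hF.th_tame k).const_mul A
  have e5 : D.lap (S.M k) (S.hh k R i) z = D.heat (S.M k) (R ^ 2) (D.lap (S.M k) (S.y k i)) z :=
    hH.lap (S.M k) (R ^ 2) hR2 _ (hF.y_sm k i) z
  have e6 := hH.mono (S.M k) (R ^ 2) hR2 _ _ hlc hAc
    (fun u => (le_abs_self _).trans (hF.lap_le k i u)) z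
  have e7 := hH.mono (S.M k) (R ^ 2) hR2 _ _ hAc.neg hlc
    (fun u => by
      have := (neg_abs_le (D.lap (S.M k) (S.y k i) u))
      have h2 := hF.lap_le k i u
      show -(A * S.th k u) ≤ _
      linarith) z
  have e8 : D.heat (S.M k) (R ^ 2) (fun u => -(A * S.th k u)) z =
      -(A * D.heat (S.M k) (R ^ 2) (S.th k) z) := by
    have := hH.neg (S.M k) (R ^ 2) (fun u => A * S.th k u) z
    rw [hH.smul] at this
    exact this
  rw [hH.smul] at e6
  change D.heat (S.M k) (R ^ 2) (fun u => -(A * S.th k u)) z ≤ _ at e7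
  rw [e8] at e7
  rw [e5, abs_le]
  have e9 : A * D.heat (S.M k) (R ^ 2) (S.th k) z ≤ A * (B * q) := by gcongr
  constructor <;> linarith

/-- location of `y_i` at points where `e` is small -/
theorem y_ge {B A a : ℝ} (hRu : D.Rules) (hH : D.Heat B) (hF : S.Facts A a) {k : ℕ} {R r l : ℝ}
    (hR : 0 < R) (hr : r ≤ R) (hl : 0 ≤ l) {x z : D.X} {i : Fin (m + 1)}
    (h1 : D.heat (S.M k) (2 * R ^ 2) (S.g1 k) x ≤ l)
    (hpos : ∀ u, 0 ≤ D.dist (S.M k) x u)
    (hx : S.g4 k R x ≤ 1) (hz : z ∈ D.ball (S.M k) x r) (hz1 : S.g4 k R z ≤ 1)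
    (hy : 3 * a * S.L k ≤ S.y k i x) (hL : 2 + Real.sqrt (B * l) * r ≤ a * S.L k) :
    2 * a * S.L k ≤ S.y k i z := by
  have hB := hH.pos
  have hsm := S.hh_sm hH hF k hR i
  have hlip := hRu.lip (S.M k) _ hsm x r (Real.sqrt (B * l)) (Real.sqrt_nonneg _)
    (fun u hu => by
      rw [Real.sq_sqrt (by positivity)]
      refine S.gr_hh_le hRu hH hF hR h1 ?_ i
      rw [abs_of_nonneg (hpos u)]
      exact (le_of_lt hu).trans hr) z hz
  have h2 : |S.hh k R i z - S.hh k R i x| ≤ Real.sqrt (B * l) * r := by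
    refine hlip.trans ?_
    have : D.dist (S.M k) x z ≤ r := le_of_lt hz
    gcongr
  have h3 := (S.le_g4 k R i x).trans hx
  have h4 := (S.le_g4 k R i z).trans hz1
  have e3 : S.ee k R i x = S.y k i x - S.hh k R i x := rfl
  have e4 : S.ee k R i z = S.y k i z - S.hh k R i z := rfl
  rw [e3, abs_le] at h3
  rw [e4, abs_le] at h4
  rw [abs_le] at h2
  linarith [h2.1, h3.1, h3.2, h4.1, h4.2]

end Degen

end Pool.Agent.SYN
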